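import Pool.Agent.Y143.Access

/-!
# Products with a Tate curve, hyperplane sections, and the restriction to the double locus
-/

namespace Pool.Agent.Helper812_WR

universe u v

open Module Pool.Agent.Y143

section

variable {Ω : Type u} [Field Ω] {V V' : Type v} [AddCommGroup V] [Module Ω V] [AddCommGroup V']
  [Module Ω V']

/-- `J(x, y) = x ⊗ e₂ + y ⊗ e₀` embeds the tensor product of `V` with `H^1(E) = Ω e₂ + Ω e₀` (`e₂` of
weight two, `e₀` of weight zero, `N e₂ = e₀`, `N e₀ = 0`) in `V'`, strictly compatibly with the weight
filtrations `W`, `W'` and compatibly with the monodromy operators `N`, `N'`. -/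
structure IsTateTensor (N : Module.End Ω V) (W : ℤ → Submodule Ω V) (N' : Module.End Ω V')
    (W' : ℤ → Submodule Ω V') (J : V × V →ₗ[Ω] V') : Prop where
  weight : ∀ w x y, J (x, y) ∈ W' w ↔ x ∈ W (w - 2) ∧ y ∈ W w
  mon : ∀ x y, N' (J (x, y)) = J (N x, x + N y)

/-- `J(x) = x ⊗ w`, for a class `w` of weight `m` with `N w = 0` and Frobenius eigenvalue `β`, embeds
`V` in `V'`, strictly compatibly with the weight filtrations `W`, `W'` (up to the shift by `m`),
compatibly with the monodromy operators `N`, `N'`, and with the Frobenius `Φ`, `Φ'` up to the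
factor `β`. -/
structure IsTwist (m : ℕ) (β : Ω) (Φ N : Module.End Ω V) (W : ℤ → Submodule Ω V)
    (Φ' N' : Module.End Ω V') (W' : ℤ → Submodule Ω V') (J : V →ₗ[Ω] V') : Prop where
  weight : ∀ w x, J x ∈ W' (w + m) ↔ x ∈ W w
  mon : ∀ x, N' (J x) = J (N x)
  frob : ∀ x, Φ' (J x) = β • J (Φ x)

/-- `x` is a generalized eigenvector of `T` for the eigenvalue `α`. -/
def IsGenEigen (T : Module.End Ω V) (α : Ω) (x : V) : Prop := x ∈ T.maxGenEigenspace α

/-- `α` is an eigenvalue of `Φ` on the graded piece `W_w / W_(w - 1)`. -/
def IsEigenvalueAt (Φ : Module.End Ω V) (W : ℤ → Submodule Ω V) (w : ℤ) (α : Ω) : Prop :=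
  ∃ v ∈ W w, v ∉ W (w - 1) ∧ Φ v - α • v ∈ W (w - 1)

end

section

variable {Ω : Type u} [Field Ω] {Γ : Type} (X : StrataData.{u, v} Ω Γ)

/-- The restriction `res y` to the double locus `Y^(2)` of a class `y` on the components `Y^(1)` of
the special fibre, as an element of the weight spectral sequence. -/
def toDouble (y : X.H 0) : X.C := Pi.single 1 (X.res 0 y)

/-- `x` is a coboundary in `E_1^(-1, w)`. -/
def IsBoundary (w : ℤ) (x : X.C) : Prop := x ∈ X.coboundaries (-1) w

/-- The class `y` on `Y^(1)` satisfies `gys (res y) = 0`. -/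
def IsClosedOnDouble (y : X.H 0) : Prop := X.gys 0 (X.res 0 y) = 0

/-- `y` is a class in `H^w(Y^(1))` on which the Frobenius acts with eigenvalue `α` (generalized
eigenspace). -/
def IsFrobClass (w : ℤ) (α : Ω) (y : X.H 0) : Prop :=
  y ∈ X.gr 0 w ∧ IsGenEigen (X.act 0 X.frob) α y

/-- `x` is a cocycle in `E_1^(-1, w)` on which the Frobenius acts with eigenvalue `α` (generalized
eigenspace), and all its components are killed by the Lefschetz operator. -/
def IsPrimitiveFrobCocycle (w : ℤ) (α : Ω) (x : X.C) : Prop :=
  x ∈ X.cocycles (-1) w ∧ X.lefC x = 0 ∧ IsGenEigen (X.actC (-1) X.frob) α x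

end

variable {Ω : Type u} [Field Ω] [CharZero Ω] {Γ : Type} {n q : ℕ}

/-- `X'` is a semistable model of the product of the generic fibre of `X` with a Tate elliptic curve
`E`: the Künneth formula embeds `H^n(X) ⊗ H^1(E)` in `H^(n+1)(X')`, where `n` is the relative
dimension of `X`. -/
def IsTateProduct (X : SemistableModel.{u, v} Ω Γ n q) (X' : SemistableModel.{u, v} Ω Γ (n + 1) q) :
    Prop :=
  ∃ J : X.V n × X.V n →ₗ[Ω] X'.V (n + 1),
    IsTateTensor (X.N n) (X.W n) (X'.N (n + 1)) (X'.W (n + 1)) J

/-- `X'` is a hypersurface section of `X`: the restriction `H^i(X) → H^i(X')` is injective (compatible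
with the Frobenius and the monodromy, and strictly compatible with the weight filtrations) for
`i ≤ n`, where `n` is the relative dimension of `X'` (the weak Lefschetz theorem). -/
def IsSection (X : SemistableModel.{u, v} Ω Γ (n + 1) q) (X' : SemistableModel.{u, v} Ω Γ n q) :
    Prop :=
  ∀ i ≤ n, ∃ f : X.V i →ₗ[Ω] X'.V i, IsTwist 0 1 (X.actV i X.frob) (X.N i) (X.W i)
    (X'.actV i X'.frob) (X'.N i) (X'.W i) f

/-- The class of degenerations `𝒳` is closed under products with a Tate elliptic curve and under
hypersurface sections. For example, `𝒳` consists of all projective strictly semistable schemes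
over `O`. -/
structure IsClosedClass (𝒳 : ∀ n, Set (Degeneration.{u, v} Ω Γ n q)) : Prop where
  tate : ∀ n, ∀ X ∈ 𝒳 n, ∃ X' ∈ 𝒳 (n + 1), IsTateProduct X.toSemistableModel X'.toSemistableModel
  sect : ∀ n, ∀ X ∈ 𝒳 (n + 1), ∃ X' ∈ 𝒳 n, IsSection X.toSemistableModel X'.toSemistableModel

/-- All the cohomology groups `H^k(X)` of the geometric generic fibre are mw pure. -/
def IsPure (X : SemistableModel.{u, v} Ω Γ n q) : Prop :=
  ∀ k : ℕ, IsMWPure q k (X.actV k X.frob) (X.N k)

/-- The condition on the double locus `Y^(2)` (the disjoint union of the intersections of two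
different components of the special fibre, of dimension `n - 1`): if `y` is a class in the
cohomology `H^(n-1)(Y^(1))` of the components of the special fibre with `gys (res y) = 0`, then the
class `res y` in the middle cohomology `H^(n-1)(Y^(2))` is a coboundary, that is, it is the image
under the Gysin map of a class on `Y^(3)`, more precisely of an element of the term `E_1^(-2, n+1)`
of the weight spectral sequence. In other words, the Poincare pairing on `H^(n-1)(Y^(2))` is
nondegenerate on the image of `H^(n-1)(Y^(1))` modulo coboundaries. -/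
def DoubleLocusCondition (X : SpecialFibre.{u, v} Ω Γ n q) : Prop :=
  ∀ y ∈ X.gr 0 ((n : ℤ) - 1), IsClosedOnDouble X.toStrataData y →
    IsBoundary X.toStrataData ((n : ℤ) + 1) (toDouble X.toStrataData y)

/-- `α` is the product of `q ^ c` and a root of unity. -/
def IsTatePower (q c : ℕ) (α : Ω) : Prop := ∃ k : ℕ, 0 < k ∧ α ^ k = ((q : Ω) ^ c) ^ k

/-- The condition on the double locus for primitive Tate classes, for a degeneration of odd relative
dimension `n = 2 m + 1`: if `y` is a class in `H^(2m)(Y^(1))` on which a power of the Frobenius acts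
as the corresponding power of `q ^ m` (generalized eigenspaces), `gys (res y) = 0`, and the class
`res y` in the middle cohomology `H^(2m)(Y^(2))` of the double locus (of dimension `2 m`) is
primitive modulo coboundaries, then `res y` is a coboundary. -/
def TateClassCondition (X : SpecialFibre.{u, v} Ω Γ n q) : Prop :=
  ∀ m : ℕ, n = 2 * m + 1 → ∀ α : Ω, IsTatePower q m α →
    ∀ y, IsFrobClass X.toStrataData (2 * (m : ℤ)) α y → IsClosedOnDouble X.toStrataData y →
      IsBoundary X.toStrataData (2 * (m : ℤ) + 4) (X.lefC (toDouble X.toStrataData y)) →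
        IsBoundary X.toStrataData (2 * (m : ℤ) + 2) (toDouble X.toStrataData y)

/-- The same for all the strata `Y^(2), Y^(4), ...` of even dimension, for a degeneration of odd
relative dimension `n = 2 m + 1`: let `x ∈ E_1^(-1, n+1)` be a family of primitive classes in the
middle cohomology groups `H^(2m)(Y^(2)), H^(2m-2)(Y^(4)), ...` (`L x = 0`) on which a power of the
Frobenius acts as the corresponding power of `q ^ (m + 1)` (generalized eigenspaces). If `x` is a
cocycle and, as an element of `E_1^(1, n-1)`, a coboundary, then it is a coboundary. -/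
def PrimitiveTateCondition (X : SpecialFibre.{u, v} Ω Γ n q) : Prop :=
  ∀ m : ℕ, n = 2 * m + 1 → ∀ α : Ω, IsTatePower q (m + 1) α →
    ∀ x, IsPrimitiveFrobCocycle X.toStrataData (2 * (m : ℤ) + 2) α x →
      x ∈ X.coboundaries 1 (2 * (m : ℤ)) → IsBoundary X.toStrataData (2 * (m : ℤ) + 2) x

/-- `X'` is the product of `X` with a smooth projective scheme `Z` of relative dimension `m` over
`O`, and `w ∈ H^m(Z)` is an eigenvector of the Frobenius whose eigenvalue `β` is inverse to `α` up
to a power of `q` and a root of unity: the Künneth formula embeds `H^n(X) ⊗ w` in `H^(n+m)(X')`. -/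
def IsInverseTwist {m : ℕ} (X : SemistableModel.{u, v} Ω Γ n q) (α : Ω)
    (X' : SemistableModel.{u, v} Ω Γ (n + m) q) : Prop :=
  ∃ (c : ℕ) (β : Ω) (J : X.V n →ₗ[Ω] X'.V (n + m)), 2 * c = n + 1 + m ∧ IsTatePower q c (α * β) ∧
    IsTwist m β (X.actV n X.frob) (X.N n) (X.W n) (X'.actV (n + m) X'.frob) (X'.N (n + m))
      (X'.W (n + m)) J

/-- Every Frobenius eigenvalue `α` on the graded piece of weight `n + 1` of the middle cohomology
`H^n(X)`, for `X` in the class, becomes a power of `q` up to a root of unity on the product of `X`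
with some smooth projective scheme over `O`, which again belongs to the class. (By the theorem of
Honda and Tate there are an abelian variety over the residue field and an eigenvalue `β'` of the
Frobenius on its cohomology such that `α β'` is the product of a power of `q` and a root of unity; by
Zarhin's trick it can be chosen principally polarised, so that it lifts to `O`; and the product with
a projective space moves the class to the middle degree.) -/
def HasTwists (𝒳 : ∀ n, Set (Degeneration.{u, v} Ω Γ n q)) : Prop :=
  ∀ n, ∀ X ∈ 𝒳 n, ∀ α : Ω, IsEigenvalueAt (X.actV n X.frob) (X.W n) (n + 1) α →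
    ∃ m, ∃ X' ∈ 𝒳 (n + m), IsInverseTwist X.toSemistableModel α X'.toSemistableModel

end Pool.Agent.Helper812_WR
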