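import Pool.Agent.Helper812_WM.Mult

/-!
# Filtrations by weights
-/

namespace Pool.Agent.Helper812_WR

universe u v

open Module Pool.Agent.Y143 Pool.Agent.X302.MW Pool.Agent.Helper812_WM

section

variable {Ω : Type u} [Field Ω] [CharZero Ω] {V : Type v} [AddCommGroup V] [Module Ω V]

/-- `F` is a finite filtration by stable subspaces, and the eigenvalues on `F_a / F_(a-1)` have
weight `a + c`. -/
structure IsWeightFiltration (q : ℕ) (c : ℤ) (Φ : Module.End Ω V) (F : ℤ → Submodule Ω V) :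
    Prop where
  mono : Monotone F
  bot : ∃ a, F a = ⊥
  top : ∃ a, F a = ⊤
  stable : ∀ a x, x ∈ F a → Φ x ∈ F a
  weight : ∀ (a : ℤ) (α : Ω) (x : V), x ∈ F a → x ∉ F (a - 1) → Φ x - α • x ∈ F (a - 1) →
    IsWeilNumber q (a + c) α

lemma IsWeightFiltration.exists_step {q : ℕ} {c : ℤ} {Φ : Module.End Ω V}
    {F : ℤ → Submodule Ω V} (hF : IsWeightFiltration q c Φ F) {x : V} (hx : x ≠ 0) :
    ∃ a, x ∈ F a ∧ x ∉ F (a - 1) := by
  by_contra hcon
  push Not at hcon
  obtain ⟨a0, h0⟩ := hF.bot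
  obtain ⟨a1, h1⟩ := hF.top
  have key : ∀ k : ℕ, x ∈ F (a1 - k) := by
    intro k
    induction k with
    | zero => rw [Nat.cast_zero, sub_zero, h1]; exact Submodule.mem_top
    | succ k ih =>
      have := hcon _ ih
      rwa [show a1 - (k : ℤ) - 1 = a1 - ((k + 1 : ℕ) : ℤ) by push_cast; ring] at this
  have h2 := hF.mono (show a1 - ((a1 - a0).toNat : ℤ) ≤ a0 by omega) (key _)
  rw [h0, Submodule.mem_bot] at h2
  exact hx h2

lemma IsWeightFiltration.gen {q : ℕ} {c : ℤ} {Φ : Module.End Ω V}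
    {F : ℤ → Submodule Ω V} (hF : IsWeightFiltration q c Φ F) {α : Ω} {x : V}
    (hx : x ∈ Φ.maxGenEigenspace α) {a : ℤ} (h1 : x ∈ F a) (h2 : x ∉ F (a - 1)) :
    IsWeilNumber q (a + c) α := by
  obtain ⟨y, hy, hy', hyα⟩ := exists_eigen_mod Φ α (Z := F a) (fun x hx => hF.stable a x hx)
    h1 h2 hx
  exact hF.weight a α y hy hy' hyα

variable [IsAlgClosed Ω] [FiniteDimensional Ω V]

/-- A weight filtration is determined by the operator. -/
lemma IsWeightFiltration.le {q : ℕ} (hq : 1 < q) {c : ℤ} {Φ : Module.End Ω V}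
    {F F' : ℤ → Submodule Ω V} (hF : IsWeightFiltration q c Φ F)
    (hF' : IsWeightFiltration q c Φ F') (a : ℤ) : F a ≤ F' a := by
  have hc : ∀ g h : Unit, Commute ((fun _ : Unit => Φ) g) ((fun _ : Unit => Φ) h) :=
    fun _ _ => Commute.refl _
  rw [← stable_eq_iSup (fun _ : Unit => Φ) hc (F a) (fun _ x hx => hF.stable a x hx)]
  apply iSup_le
  rintro χ x ⟨hx, hxW⟩
  by_cases hx0 : x = 0
  · rw [hx0]; exact Submodule.zero_mem _
  have hg : x ∈ Φ.maxGenEigenspace (χ ()) := by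
    have h1 : x ∈ Wt (fun _ : Unit => Φ) χ := hxW
    unfold Wt at h1
    rw [Submodule.mem_iInf] at h1
    exact h1 ()
  obtain ⟨b, hb1, hb2⟩ := hF.exists_step hx0
  obtain ⟨b', hb1', hb2'⟩ := hF'.exists_step hx0
  have hw := hF.gen hg hb1 hb2
  have hw' := hF'.gen hg hb1' hb2'
  have hbb := weil_unique hq hw hw'
  have hba : b ≤ a := by
    by_contra hcon
    push Not at hcon
    exact hb2 (hF.mono (show a ≤ b - 1 by omega) hx)
  exact hF'.mono (show b' ≤ a by omega) hb1'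

lemma IsWeightFiltration.eq {q : ℕ} (hq : 1 < q) {c : ℤ} {Φ : Module.End Ω V}
    {F F' : ℤ → Submodule Ω V} (hF : IsWeightFiltration q c Φ F)
    (hF' : IsWeightFiltration q c Φ F') (a : ℤ) : F a = F' a :=
  le_antisymm (hF.le hq hF' a) (hF'.le hq hF a)

end

section

variable {Ω : Type u} [Field Ω] [CharZero Ω] {Γ : Type} {n q : ℕ}
  (X : SemistableModel.{u, v} Ω Γ n q)

lemma isWeightFiltration_W (i : ℕ) :
    IsWeightFiltration q i (X.actV i X.frob) (fun a => X.W i (i + a)) where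
  mono a b hab := X.W_mono i (by omega)
  bot := by
    obtain ⟨w, hw⟩ := X.W_bot i
    refine ⟨w - i, ?_⟩
    show X.W i (i + (w - i)) = ⊥
    rw [show (i : ℤ) + (w - i) = w by ring, hw]
  top := by
    obtain ⟨w, hw⟩ := X.W_top i
    refine ⟨w - i, ?_⟩
    show X.W i (i + (w - i)) = ⊤
    rw [show (i : ℤ) + (w - i) = w by ring, hw]
  stable a x hx := W_stable X i _ x hx
  weight a α x hx hx' hα := by
    obtain ⟨y, hy, hy0, hyα⟩ := eigen_of_graded X i (i + a) hx (by
      rwa [show (i : ℤ) + a - 1 = i + (a - 1) by ring]) (by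
      rwa [show (i : ℤ) + a - 1 = i + (a - 1) by ring])
    have := X.weil_E₁ hy.1 hy0 hyα
    rwa [show (i : ℤ) + a = a + i by ring] at this

/-- If `H^i` is mw pure, then `N` is injective from the graded piece of weight `i + 1` to the graded
piece of weight `i - 1`. -/
lemma inj_of_pure [IsAlgClosed Ω] (hq : 1 < q) (i : ℕ)
    (h : IsMWPure q i (X.actV i X.frob) (X.N i)) {v : X.V i} (hv : v ∈ X.W i (i + 1))
    (hN : X.N i v ∈ X.W i (i - 2)) : v ∈ X.W i i := by
  obtain ⟨M, hM, hMs, hMw⟩ := h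
  have h1 : IsWeightFiltration q i (X.actV i X.frob) M :=
    ⟨hM.mono, hM.bot, hM.top, hMs, hMw⟩
  have h2 : ∀ a, M a = X.W i (i + a) := fun a => h1.eq hq (isWeightFiltration_W X i) a
  have h3 := hM.inj 1 v (by rw [h2]; exact_mod_cast hv) (by
    rw [h2, pow_one]
    rwa [show (i : ℤ) + (-((1 : ℕ) : ℤ) - 1) = i - 2 by push_cast; ring])
  rw [h2] at h3
  rwa [show (i : ℤ) + (((1 : ℕ) : ℤ) - 1) = i by push_cast; ring] at h3

end

end Pool.Agent.Helper812_WR
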