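import Pool.Agent.Helper812_WR.Tate

/-!
# The criteria
-/

namespace Pool.Agent.Helper812_WR

universe u v

open Module Pool.Agent.Y143 Pool.Agent.X302.MW Pool.Agent.Helper812_WM

variable {Ω : Type u} [Field Ω] [CharZero Ω] [IsAlgClosed Ω] {Γ : Type} {n q : ℕ}

/-- mw purity of the middle cohomology implies the double locus condition. -/
lemma cond_of_pure (hq : 1 < q) (X : SemistableModel.{u, v} Ω Γ n q) (h : IsPure X) :
    DoubleLocusCondition X.toSpecialFibre := by
  apply cond_of_injAt X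
  intro v hv hN
  rw [Nat.cast_one] at hv hN ⊢
  rw [pow_one] at hN
  have h1 := inj_of_pure X hq n (h n) hv (by
    rwa [show (n : ℤ) - 2 = n - 1 - 1 by ring])
  rwa [show (n : ℤ) + 1 - 1 = n by ring]

omit [IsAlgClosed Ω] in
/-- The double locus condition implies the condition for Tate classes. -/
lemma tate_of_cond (X : SpecialFibre.{u, v} Ω Γ n q) (h : DoubleLocusCondition X) :
    TateClassCondition X := by
  rintro m hm α _ y ⟨hy, _⟩ hg _
  have e : (n : ℤ) - 1 = 2 * m := by rw [hm]; push_cast; ring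
  have := h y (by rwa [e]) hg
  rwa [show (n : ℤ) + 1 = 2 * m + 2 by rw [hm]; push_cast; ring] at this

variable {𝒳 : ∀ n, Set (Degeneration.{u, v} Ω Γ n q)}

omit [IsAlgClosed Ω] in
theorem pure_of_cond (h𝒳 : IsClosedClass 𝒳) {n : ℕ}
    (h : ∀ m < 2 * n, ∀ X ∈ 𝒳 m, DoubleLocusCondition X.toSpecialFibre)
    (X : Degeneration.{u, v} Ω Γ n q) (hX : X ∈ 𝒳 n) : IsPure X.toSemistableModel :=
  pure_of_injAt h𝒳 (fun m hm X hX => injAt_one X.toSemistableModel (h m hm X hX)) X hX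

theorem pure_of_prim (h𝒳 : IsClosedClass 𝒳) (hT : HasTwists 𝒳)
    (h : ∀ n, ∀ X ∈ 𝒳 n, PrimitiveTateCondition X.toSpecialFibre)
    (X : Degeneration.{u, v} Ω Γ n q) (hX : X ∈ 𝒳 n) : IsPure X.toSemistableModel :=
  pure_of_injAt h𝒳 (fun m _ X hX => injAt_of_tateInj hT (tateInj_all h𝒳 h) m X hX) X hX

end Pool.Agent.Helper812_WR
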