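import Pool.Agent.Helper812_WR.Defs

/-!
# Local invariants: definitions
-/

namespace Pool.Agent.Helper812_WR

universe u v

open Module Pool.Agent.Y143

section

variable {Ω : Type u} [Field Ω] {V : Type v} [AddCommGroup V] [Module Ω V]

/-- The relation `N Φ = q Φ N` between the logarithm `N : V → V(-1)` of the monodromy and a geometric
Frobenius element `Φ`. -/
def IsWeilDeligne (q : ℕ) (Φ N : Module.End Ω V) : Prop := ∀ x, N (Φ x) = (q : Ω) • Φ (N x)

/-- `H^0(K', V(c)) = 0` for all finite extensions `K'` of `K`: there is no `x ≠ 0` in `V` with `N x = 0`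
on which a power `Φ ^ k` of the Frobenius, `k ≥ 1`, acts as multiplication by `q ^ (c k)`. -/
def NoInvariants (q c : ℕ) (Φ N : Module.End Ω V) : Prop :=
  ∀ (k : ℕ) (x : V), 0 < k → N x = 0 → (Φ ^ k) x = ((q : Ω) ^ c) ^ k • x → x = 0

/-- No power `Φ ^ k` of the Frobenius, `k ≥ 1`, has the eigenvalue `q ^ (c k)` on `V / N V`, that is,
`H^0(K', H^1(I, V(c + 1))) = 0` for all finite extensions `K'` of `K`. -/
def NoCoinvariants (q c : ℕ) (Φ N : Module.End Ω V) : Prop :=
  ∀ (k : ℕ) (x : V), 0 < k → (∃ y, (Φ ^ k) x - ((q : Ω) ^ c) ^ k • x = N y) → ∃ y, x = N y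

/-- `H^1(K', V(c + 1)) = 0` for all finite extensions `K'` of `K`. By the sequence
`0 → V(c + 1)^I / (Frob - 1) → H^1(K', V(c + 1)) → H^1(I, V(c + 1))^Frob → 0` this means that
`V(c + 1)^I = Ker N` and `H^1(I, V(c + 1)) = (V / N V)(c)` have no Frobenius invariants. -/
def NoLocalCohomology (q c : ℕ) (Φ N : Module.End Ω V) : Prop :=
  NoInvariants q (c + 1) Φ N ∧ NoCoinvariants q c Φ N

end

variable {Ω : Type u} [Field Ω] [CharZero Ω] {Γ : Type} {n q : ℕ}

/-- The local invariant cycle property in degree `i`: the classes in `H^i` of the geometric generic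
fibre which are invariant under the inertia group (`N v = 0`) have weight `≤ i`. -/
def InvariantCycles (X : SemistableModel.{u, v} Ω Γ n q) (i : ℕ) : Prop :=
  ∀ v : X.V i, X.N i v = 0 → v ∈ X.W i i

/-- `N Φ = q Φ N` on the cohomology of the geometric generic fibre. -/
def HasMonodromyRelation (𝒳 : ∀ n, Set (Degeneration.{u, v} Ω Γ n q)) : Prop :=
  ∀ n, ∀ X ∈ 𝒳 n, ∀ i, IsWeilDeligne q (X.actV i X.frob) (X.N i)

/-- `H^0(K', H^i(X)(c)) = 0` for all finite extensions `K'` of `K`. -/
def NoInvariantsIn (X : SemistableModel.{u, v} Ω Γ n q) (i c : ℕ) : Prop :=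
  NoInvariants q c (X.actV i X.frob) (X.N i)

/-- `H^1(K', H^i(X)(c + 1)) = 0` for all finite extensions `K'` of `K`. -/
def NoLocalCohomologyIn (X : SemistableModel.{u, v} Ω Γ n q) (i c : ℕ) : Prop :=
  NoLocalCohomology q c (X.actV i X.frob) (X.N i)

end Pool.Agent.Helper812_WR
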