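import Pool.Agent.Helper812_WR.Final
import Pool.Agent.Helper812_WR.InvDefs

/-!
# Local invariants
-/

namespace Pool.Agent.Helper812_WR

universe u v

open Module Pool.Agent.Y143 Pool.Agent.X302.MW Pool.Agent.Helper812_WM

section gen

variable {Ω : Type u} [Field Ω] [CharZero Ω] {V : Type v} [AddCommGroup V] [Module Ω V]

/-- A root of `x ^ k = q ^ (c k)` is a Weil number of weight `2 c`. -/
lemma weil_of_pow {q c k : ℕ} (hk : 0 < k) {γ : Ω} (h : γ ^ k = ((q : Ω) ^ c) ^ k) :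
    IsWeilNumber q (2 * (c : ℤ)) γ := by
  have h1 : IsAlgebraic ℚ γ := by
    refine IsAlgebraic.of_pow hk ?_
    rw [h]
    have : ((q : Ω) ^ c) ^ k = algebraMap ℚ Ω (((q : ℚ) ^ c) ^ k) := by
      simp
    rw [this]
    exact isAlgebraic_algebraMap _
  refine ⟨h1, fun z hz => ?_⟩
  have h2 : Polynomial.aeval γ (Polynomial.X ^ k - Polynomial.C (((q : ℚ) ^ c) ^ k)) = 0 := by
    rw [map_sub, map_pow, Polynomial.aeval_X, Polynomial.aeval_C, h]
    simp
  obtain ⟨R, hR⟩ := minpoly.dvd ℚ γ h2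
  have h3 : Polynomial.aeval z (Polynomial.X ^ k - Polynomial.C (((q : ℚ) ^ c) ^ k)) = 0 := by
    rw [hR, map_mul, hz, zero_mul]
  rw [map_sub, map_pow, Polynomial.aeval_X, Polynomial.aeval_C, sub_eq_zero] at h3
  have h4 : ‖z‖ ^ k = ((q : ℝ) ^ c) ^ k := by
    rw [← norm_pow, h3]
    simp
  have h5 : ‖z‖ = (q : ℝ) ^ c :=
    (pow_left_inj₀ (norm_nonneg _) (by positivity) (by omega)).1 h4
  rw [h5, ← Real.rpow_natCast]
  congr 1
  push_cast
  ring

lemma wd_pow {q : ℕ} {Φ N : Module.End Ω V} (h : IsWeilDeligne q Φ N) (hq : (q : Ω) ≠ 0) (α : Ω)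
    (k : ℕ) (x : V) : ((Φ - ((q : Ω)⁻¹ * α) • (1 : Module.End Ω V)) ^ k) (N x) =
      ((q : Ω)⁻¹) ^ k • N (((Φ - α • (1 : Module.End Ω V)) ^ k) x) := by
  induction k generalizing x with
  | zero => simp
  | succ k ih =>
    have h1 : (Φ - ((q : Ω)⁻¹ * α) • (1 : Module.End Ω V)) (N x) =
        (q : Ω)⁻¹ • N ((Φ - α • (1 : Module.End Ω V)) x) := by
      rw [LinearMap.sub_apply, LinearMap.sub_apply, LinearMap.smul_apply, LinearMap.smul_apply,
        Module.End.one_apply, Module.End.one_apply, map_sub, h, map_smul, smul_sub, smul_smul,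
        smul_smul, inv_mul_cancel₀ hq, one_smul]
    rw [pow_succ, Module.End.mul_apply, h1, map_smul, ih, smul_smul, ← pow_succ',
      pow_succ (Φ - α • (1 : Module.End Ω V)) k, Module.End.mul_apply]

end gen

variable {Ω : Type u} [Field Ω] [CharZero Ω] [IsAlgClosed Ω] {Γ : Type} {n q : ℕ}

section

variable (X : SemistableModel.{u, v} Ω Γ n q)

/-- If `N` is not injective from the graded piece of weight `i + 1` to the one of weight `i - 1`,
then there is an eigenvector of weight `i + 1` in the kernel of `N`. -/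
lemma exists_eigen_inv (hq : 1 < q) {i : ℕ} (hWD : IsWeilDeligne q (X.actV i X.frob) (X.N i))
    (h : ¬ InjAt X i 1) : ∃ (α : Ω) (v : X.V i), v ∈ X.W i (i + 1) ∧ v ∉ X.W i i ∧
      X.N i v = 0 ∧ X.actV i X.frob v = α • v := by
  have hq0 : (q : Ω) ≠ 0 := Nat.cast_ne_zero.2 (by omega)
  unfold InjAt at h
  push Not at h
  obtain ⟨v, hv, hN, hv'⟩ := h
  rw [pow_one, Nat.cast_one, show (i : ℤ) - 1 - 1 = i - 2 by ring] at hN
  rw [Nat.cast_one] at hv
  rw [Nat.cast_one, show (i : ℤ) + 1 - 1 = i by ring] at hv'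
  -- the stable subspace
  let Z : Submodule Ω (X.V i) := X.W i (i + 1) ⊓ (X.W i (i - 2)).comap (X.N i)
  have hZ : ∀ x ∈ Z, X.actV i X.frob x ∈ Z := by
    rintro x ⟨hx1, hx2⟩
    refine ⟨W_stable X i _ x hx1, ?_⟩
    show X.N i (X.actV i X.frob x) ∈ X.W i (i - 2)
    rw [hWD]
    exact Submodule.smul_mem _ _ (W_stable X i _ _ hx2)
  -- a generalized eigenvector
  have hc : ∀ g h : Unit, Commute ((fun _ : Unit => X.actV i X.frob) g)
      ((fun _ : Unit => X.actV i X.frob) h) := fun _ _ => Commute.refl _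
  obtain ⟨α, x, hxZ, hxW, hxg⟩ : ∃ (α : Ω) (x : X.V i), x ∈ Z ∧ x ∉ X.W i i ∧
      x ∈ (X.actV i X.frob).maxGenEigenspace α := by
    by_contra hcon
    push Not at hcon
    apply hv'
    have h1 : Z ≤ X.W i i := by
      rw [← stable_eq_iSup (fun _ : Unit => X.actV i X.frob) hc Z (fun _ x hx => hZ x hx)]
      apply iSup_le
      rintro χ x ⟨hx, hxW⟩
      by_contra hne
      refine hcon (χ ()) x hx hne ?_
      have h1 : x ∈ Wt (fun _ : Unit => X.actV i X.frob) χ := hxW
      unfold Wt at h1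
      rw [Submodule.mem_iInf] at h1
      exact h1 ()
    exact h1 ⟨hv, hN⟩
  -- its weight
  have hα : IsWeilNumber q ((i : ℤ) + 1) α := by
    obtain ⟨y, hy, hy', hyα⟩ := exists_eigen_mod (X.actV i X.frob) α (Z := X.W i (i + 1))
      (W_stable X i _) hxZ.1 (B := X.W i (i + 1 - 1)) (by
        rwa [show (i : ℤ) + 1 - 1 = i by ring]) hxg
    obtain ⟨z, hz, hz0, hzα⟩ := eigen_of_graded X i _ hy hy' hyα
    exact X.weil_E₁ hz.1 hz0 hzα
  -- `N x = 0`
  have hNx : X.N i x = 0 := by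
    by_contra hne
    have h1 : IsWeilNumber q ((i : ℤ) - 1) ((q : Ω)⁻¹ * α) := by
      have := hα.twist (by omega : q ≠ 0) (-1)
      rwa [zpow_neg_one, show (i : ℤ) + 1 + 2 * -1 = i - 1 by ring] at this
    have h2 : X.N i x ∈ (X.actV i X.frob).maxGenEigenspace ((q : Ω)⁻¹ * α) := by
      obtain ⟨k, hk⟩ := (Module.End.mem_maxGenEigenspace _ _ _).1 hxg
      rw [Module.End.mem_maxGenEigenspace]
      exact ⟨k, by rw [wd_pow hWD hq0, hk, map_zero, smul_zero]⟩
    have h3 := (gen_weight X hq i h1 h2 hne).2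
    rw [show (i : ℤ) - 1 - 1 = i - 2 by ring] at h3
    exact h3 hxZ.2
  -- an eigenvector
  have hx0 : x ≠ 0 := by
    rintro rfl
    exact hxW (Submodule.zero_mem _)
  obtain ⟨y, hy, hy0, hyα⟩ := exists_eigen_mod (X.actV i X.frob) α
    (Z := LinearMap.ker (X.N i)) (B := ⊥) (fun x hx => by
      rw [LinearMap.mem_ker] at hx ⊢
      rw [hWD, hx, map_zero, smul_zero]) (LinearMap.mem_ker.2 hNx) (by simpa using hx0) hxg
  rw [Submodule.mem_bot, sub_eq_zero] at hyα
  have hyg : y ∈ (X.actV i X.frob).maxGenEigenspace α := by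
    rw [Module.End.mem_maxGenEigenspace]
    refine ⟨1, ?_⟩
    rw [pow_one, LinearMap.sub_apply, LinearMap.smul_apply, Module.End.one_apply, hyα, sub_self]
  have h4 := gen_weight X hq i hα hyg (by simpa using hy0)
  rw [show (i : ℤ) + 1 - 1 = i by ring] at h4
  exact ⟨α, y, h4.1, h4.2, LinearMap.mem_ker.1 hy, hyα⟩

/-- The local invariant cycle property implies the injectivity of `N` on the graded piece of weight
`i + 1`. -/
lemma injAt_of_inv (hq : 1 < q) {i : ℕ} (hWD : IsWeilDeligne q (X.actV i X.frob) (X.N i))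
    (h : InvariantCycles X i) : InjAt X i 1 := by
  by_contra hcon
  obtain ⟨α, v, -, hv, hN, -⟩ := exists_eigen_inv X hq hWD hcon
  exact hv (h v hN)

/-- mw purity implies the local invariant cycle property. -/
lemma inv_of_pure (hq : 1 < q) {i : ℕ} (h : IsMWPure q i (X.actV i X.frob) (X.N i)) :
    InvariantCycles X i := by
  intro v hN
  obtain ⟨M, hM, hMs, hMw⟩ := h
  have h1 : IsWeightFiltration q i (X.actV i X.frob) M :=
    ⟨hM.mono, hM.bot, hM.top, hMs, hMw⟩
  have h2 : ∀ a, M a = X.W i (i + a) := fun a => h1.eq hq (isWeightFiltration_W X i) a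
  have h0 : X.W i i = M 0 := by rw [h2, add_zero]
  rw [h0]
  by_cases hv0 : v = 0
  · rw [hv0]; exact Submodule.zero_mem _
  obtain ⟨a, ha1, ha2⟩ := h1.exists_step hv0
  rcases le_or_gt a 0 with ha | ha
  · exact hM.mono ha ha1
  · exfalso
    obtain ⟨b, rfl⟩ := Int.eq_ofNat_of_zero_le ha.le
    have hb : b ≠ 0 := by omega
    obtain ⟨c, rfl⟩ := Nat.exists_eq_succ_of_ne_zero hb
    refine ha2 (hM.inj (c + 1) v ha1 ?_)
    rw [pow_succ, Module.End.mul_apply, hN, map_zero]
    exact Submodule.zero_mem _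

/-- mw purity implies that the part of weight `≤ i - 1` is in the image of `N`. -/
lemma range_of_pure (hq : 1 < q) {i : ℕ} (h : IsMWPure q i (X.actV i X.frob) (X.N i)) :
    X.W i (i - 1) ≤ LinearMap.range (X.N i) := by
  obtain ⟨M, hM, hMs, hMw⟩ := h
  have h1 : IsWeightFiltration q i (X.actV i X.frob) M :=
    ⟨hM.mono, hM.bot, hM.top, hMs, hMw⟩
  have h2 : ∀ a, M a = X.W i (i + a) := fun a => h1.eq hq (isWeightFiltration_W X i) a
  have h0 : X.W i (i - 1) = M (-1) := by rw [h2]; rfl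
  rw [h0]
  obtain ⟨b, hb⟩ := hM.bot
  have key : ∀ j : ℕ, b + j ≤ -1 → M (b + j) ≤ LinearMap.range (X.N i) := by
    intro j
    induction j with
    | zero =>
      intro _
      rw [Nat.cast_zero, add_zero, hb]
      exact bot_le
    | succ j ih =>
      intro hj y hy
      have hj2 : b + j ≤ -1 := by push_cast at hj; omega
      obtain ⟨a, ha⟩ := Int.eq_ofNat_of_zero_le (show 0 ≤ -(b + ((j + 1 : ℕ) : ℤ)) by omega)
      have ha' : b + ((j + 1 : ℕ) : ℤ) = -(a : ℤ) := by omega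
      rw [ha'] at hy
      obtain ⟨x, -, hx⟩ := hM.surj a y hy
      have hx2 := ih hj2 (by
        rwa [show b + (j : ℤ) = -(a : ℤ) - 1 by push_cast at ha'; omega])
      have ha0 : a ≠ 0 := by
        rintro rfl
        push_cast at ha' hj
        omega
      obtain ⟨c, rfl⟩ := Nat.exists_eq_succ_of_ne_zero ha0
      have hx3 : (X.N i ^ (c + 1)) x ∈ LinearMap.range (X.N i) := by
        rw [pow_succ', Module.End.mul_apply]
        exact ⟨_, rfl⟩
      have := Submodule.add_mem _ hx2 hx3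
      rwa [sub_add_cancel] at this
  rcases le_or_gt (-1) b with hb1 | hb1
  · intro x hx
    have := hM.mono hb1 hx
    rw [hb, Submodule.mem_bot] at this
    rw [this]
    exact Submodule.zero_mem _
  · have := key (-1 - b).toNat (by omega)
    rwa [show b + ((-1 - b).toNat : ℤ) = -1 by omega] at this

omit [CharZero Ω] in
lemma exists_eigen_stable {V : Type*} [AddCommGroup V] [Module Ω V] [FiniteDimensional Ω V]
    (T : Module.End Ω V) {Z : Submodule Ω V} (hZ : ∀ x ∈ Z, T x ∈ Z) {v : V} (hv : v ∈ Z)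
    (hv0 : v ≠ 0) : ∃ (α : Ω) (y : V), y ∈ Z ∧ y ≠ 0 ∧ T y = α • y := by
  haveI : Nontrivial Z := ⟨⟨⟨v, hv⟩, 0, fun h => hv0 (congrArg Subtype.val h)⟩⟩
  obtain ⟨α, hα⟩ := Module.End.exists_eigenvalue (T.restrict hZ)
  obtain ⟨y, hy⟩ := hα.exists_hasEigenvector
  refine ⟨α, y, y.2, fun h => hy.2 (Subtype.ext h), ?_⟩
  exact congrArg Subtype.val hy.apply_eq_smul

lemma pow_eigen {V : Type*} [AddCommGroup V] [Module Ω V] {T : Module.End Ω V} {α : Ω} {y : V}
    {B : Submodule Ω V} (hB : ∀ x ∈ B, T x ∈ B) (h : T y - α • y ∈ B) (k : ℕ) :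
    (T ^ k) y - α ^ k • y ∈ B := by
  induction k with
  | zero => simp
  | succ k ih =>
    rw [pow_succ', Module.End.mul_apply]
    have h1 : T ((T ^ k) y) - α ^ (k + 1) • y = T ((T ^ k) y - α ^ k • y) +
        α ^ k • (T y - α • y) := by
      rw [map_sub, map_smul, smul_sub, smul_smul, pow_succ]
      abel
    rw [h1]
    exact B.add_mem (hB _ ih) (B.smul_mem _ h)

lemma pow_comm {V : Type*} [AddCommGroup V] [Module Ω V] (T : Module.End Ω V) (k : ℕ) (x : V) :
    (T ^ k) (T x) = T ((T ^ k) x) := by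
  rw [← Module.End.mul_apply, ← pow_succ, pow_succ', Module.End.mul_apply]

/-- mw purity implies the vanishing of the local invariants. -/
lemma noInv_of_pure (hq : 1 < q) {i c : ℕ} (hic : i < 2 * c)
    (h : IsMWPure q i (X.actV i X.frob) (X.N i)) : NoInvariantsIn X i c := by
  intro k v hk hN hv
  by_contra hv0
  have hvW := inv_of_pure X hq h v hN
  let Z : Submodule Ω (X.V i) := X.W i i ⊓
    LinearMap.ker (X.actV i X.frob ^ k - (((q : Ω) ^ c) ^ k) • (1 : Module.End Ω (X.V i)))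
  have hZ : ∀ x ∈ Z, X.actV i X.frob x ∈ Z := by
    rintro x ⟨hx1, hx2⟩
    refine ⟨W_stable X i _ x hx1, ?_⟩
    rw [SetLike.mem_coe, LinearMap.mem_ker, LinearMap.sub_apply, LinearMap.smul_apply,
      Module.End.one_apply, sub_eq_zero] at hx2 ⊢
    rw [pow_comm, hx2, map_smul]
  obtain ⟨α, y, hy, hy0, hyα⟩ := exists_eigen_stable (X.actV i X.frob) hZ (v := v)
    ⟨hvW, by
      rw [SetLike.mem_coe, LinearMap.mem_ker, LinearMap.sub_apply, LinearMap.smul_apply,
        Module.End.one_apply, sub_eq_zero]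
      exact hv⟩ hv0
  have hy2 : (X.actV i X.frob ^ k) y = (((q : Ω) ^ c) ^ k) • y := by
    have := hy.2
    rwa [SetLike.mem_coe, LinearMap.mem_ker, LinearMap.sub_apply, LinearMap.smul_apply,
      Module.End.one_apply, sub_eq_zero] at this
  have hα : α ^ k = ((q : Ω) ^ c) ^ k := by
    have h1 := pow_eigen (B := ⊥) (T := X.actV i X.frob) (α := α) (y := y)
      (fun x hx => by
        rw [Submodule.mem_bot] at hx ⊢
        rw [hx, map_zero]) (by rw [hyα, sub_self]; exact Submodule.zero_mem _) k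
    rw [Submodule.mem_bot, hy2, ← sub_smul] at h1
    exact (sub_eq_zero.1 ((smul_eq_zero.1 h1).resolve_right hy0)).symm
  have hyg : y ∈ (X.actV i X.frob).maxGenEigenspace α := by
    rw [Module.End.mem_maxGenEigenspace]
    refine ⟨1, ?_⟩
    rw [pow_one, LinearMap.sub_apply, LinearMap.smul_apply, Module.End.one_apply, hyα, sub_self]
  exact (gen_weight X hq i (weil_of_pow hk hα) hyg hy0).2 (X.W_mono i (by omega) hy.1)

/-- mw purity implies the vanishing of the coinvariants. -/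
lemma noCoinv_of_pure (hq : 1 < q) {i c : ℕ} (hic : 2 * c < i)
    (hWD : IsWeilDeligne q (X.actV i X.frob) (X.N i))
    (h : IsMWPure q i (X.actV i X.frob) (X.N i)) :
    NoCoinvariants q c (X.actV i X.frob) (X.N i) := by
  have hq0 : (q : Ω) ≠ 0 := Nat.cast_ne_zero.2 (by omega)
  intro k x hk hx
  obtain ⟨z, hz⟩ := hx
  by_contra hcon
  let B : Submodule Ω (X.V i) := LinearMap.range (X.N i)
  have hB : ∀ x ∈ B, X.actV i X.frob x ∈ B := by
    rintro _ ⟨y, rfl⟩
    refine ⟨(q : Ω)⁻¹ • X.actV i X.frob y, ?_⟩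
    rw [map_smul, hWD, smul_smul, inv_mul_cancel₀ hq0, one_smul]
  let Z : Submodule Ω (X.V i) := B.comap
    (X.actV i X.frob ^ k - (((q : Ω) ^ c) ^ k) • (1 : Module.End Ω (X.V i)))
  have hZ : ∀ x ∈ Z, X.actV i X.frob x ∈ Z := by
    intro x hx
    rw [Submodule.mem_comap, LinearMap.sub_apply, LinearMap.smul_apply, Module.End.one_apply] at hx ⊢
    rw [pow_comm, ← map_smul, ← map_sub]
    exact hB _ hx
  have hc : ∀ g h : Unit, Commute ((fun _ : Unit => X.actV i X.frob) g)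
      ((fun _ : Unit => X.actV i X.frob) h) := fun _ _ => Commute.refl _
  obtain ⟨α, x', hx'Z, hx'B, hx'g⟩ : ∃ (α : Ω) (x : X.V i), x ∈ Z ∧ x ∉ B ∧
      x ∈ (X.actV i X.frob).maxGenEigenspace α := by
    by_contra hcon2
    push Not at hcon2
    apply hcon
    have h1 : Z ≤ B := by
      rw [← stable_eq_iSup (fun _ : Unit => X.actV i X.frob) hc Z (fun _ x hx => hZ x hx)]
      apply iSup_le
      rintro χ x ⟨hx, hxW⟩
      by_contra hne
      refine hcon2 (χ ()) x hx hne ?_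
      have h1 : x ∈ Wt (fun _ : Unit => X.actV i X.frob) χ := hxW
      unfold Wt at h1
      rw [Submodule.mem_iInf] at h1
      exact h1 ()
    obtain ⟨y, hy⟩ := h1 (show x ∈ Z by
      rw [Submodule.mem_comap, LinearMap.sub_apply, LinearMap.smul_apply, Module.End.one_apply, hz]
      exact ⟨z, rfl⟩)
    exact ⟨y, hy.symm⟩
  obtain ⟨y, ⟨hyZ, hyg⟩, hyB, hyα⟩ := exists_eigen_mod (X.actV i X.frob) α
    (Z := Z ⊓ (X.actV i X.frob).maxGenEigenspace α) (B := B) (fun x hx =>
      ⟨hZ x hx.1, Module.End.mapsTo_maxGenEigenspace_of_comm (Commute.refl _) α hx.2⟩)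
    ⟨hx'Z, hx'g⟩ hx'B hx'g
  have hα : α ^ k = ((q : Ω) ^ c) ^ k := by
    have h1 := pow_eigen hB hyα k
    have h2 : (X.actV i X.frob ^ k) y - (((q : Ω) ^ c) ^ k) • y ∈ B := hyZ
    have h3 := B.sub_mem h2 h1
    rw [sub_sub_sub_cancel_left, ← sub_smul] at h3
    by_contra hne
    have h4 := (Submodule.smul_mem_iff B (sub_ne_zero.2 hne)).1 h3
    exact hyB h4
  have hy0 : y ≠ 0 := by
    rintro rfl
    exact hyB (Submodule.zero_mem _)
  have h5 := (gen_weight X hq i (weil_of_pow hk hα) hyg hy0).1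
  exact hyB (range_of_pure X hq h (X.W_mono i (by omega) h5))

end

variable {𝒳 : ∀ n, Set (Degeneration.{u, v} Ω Γ n q)}

/-- From the vanishing of the local invariants to the injectivity of `N`. -/
theorem injAt_of_noInv (hq : 1 < q) (hWD : HasMonodromyRelation 𝒳) (hT : HasTwists 𝒳)
    (h : ∀ m, ∀ X ∈ 𝒳 (2 * m + 1), NoInvariantsIn X.toSemistableModel (2 * m + 1) (m + 1))
    (n : ℕ) : ∀ X ∈ 𝒳 n, InjAt X.toSemistableModel n 1 := by
  intro X hX
  by_contra hcon
  obtain ⟨α, v, hv, hv', hN, hα⟩ := exists_eigen_inv X.toSemistableModel hq (hWD n X hX n) hcon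
  have en : (n : ℤ) + 1 - 1 = n := by ring
  obtain ⟨m, X', hX', c, β, J, hc, ⟨k, hk, hαβ⟩, hJ⟩ := hT n X hX α
    ⟨v, hv, by rwa [en], by rw [hα, sub_self]; exact Submodule.zero_mem _⟩
  obtain ⟨m', hm', hn'⟩ : ∃ m', c = m' + 1 ∧ n + m = 2 * m' + 1 := ⟨c - 1, by omega, by omega⟩
  subst hm'
  have key : ∀ (N : ℕ) (_ : N = 2 * m' + 1) (X' : Degeneration.{u, v} Ω Γ N q) (_ : X' ∈ 𝒳 N)
      (w : X'.V N), w ≠ 0 → X'.N N w = 0 →
        (X'.actV N X'.frob ^ k) w = ((q : Ω) ^ (m' + 1)) ^ k • w → False := by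
    rintro N rfl X' hX' w hw0 hw1 hw2
    exact hw0 (h m' X' hX' k w hk hw1 hw2)
  refine key (n + m) hn' X' hX' (J v) ?_ ?_ ?_
  · intro h0
    apply hv'
    rw [← hJ.weight, h0]
    exact Submodule.zero_mem _
  · rw [hJ.mon, hN, map_zero]
  · have h1 : X'.actV (n + m) X'.frob (J v) = (α * β) • J v := by
      rw [hJ.frob, hα, map_smul, smul_smul, mul_comm]
    have h2 : ∀ j : ℕ, (X'.actV (n + m) X'.frob ^ j) (J v) = (α * β) ^ j • J v := by
      intro j
      induction j with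
      | zero => simp
      | succ j ih =>
        rw [pow_succ', Module.End.mul_apply, ih, map_smul, h1, smul_smul, ← pow_succ]
    rw [h2, hαβ]

end Pool.Agent.Helper812_WR
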