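import Pool.Agent.Helper812_WR.Defs
import Pool.Agent.Helper812_WR.Filt

/-!
# The weight-monodromy conjecture and the double locus
-/

namespace Pool.Agent.Helper812_WR

universe u v

open Module Pool.Agent.Y143 Pool.Agent.X302.MW Pool.Agent.Helper812_WM

variable {Ω : Type u} [Field Ω] [CharZero Ω] {Γ : Type} {n q : ℕ}

/-- `N ^ r` is injective from the graded piece of weight `i + r` of `H^i` to the graded piece of
weight `i - r`. -/
def InjAt (X : SemistableModel.{u, v} Ω Γ n q) (i r : ℕ) : Prop :=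
  ∀ v ∈ X.W i (i + r), (X.N i ^ r) v ∈ X.W i (i - r - 1) → v ∈ X.W i (i + r - 1)

section step

variable (X : SemistableModel.{u, v} Ω Γ n q)

/-- From the double locus to the first power of `N`. -/
lemma injAt_one (h : DoubleLocusCondition X.toSpecialFibre) : InjAt X n 1 := by
  intro v hv hN
  rw [pow_one] at hN
  rw [Nat.cast_one] at hv hN ⊢
  obtain ⟨x, hx⟩ := X.sp_left n _ v hv
  have h1 := (X.sp_mem n _ _ _ hx).2
  have h2 := X.sp_N n _ _ _ hx
  have e : X.cut ((n : ℤ) - (n + 1) + 2) x = x := by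
    have h3 := h1.1
    rw [show (n : ℤ) - (n + 1) = -((1 : ℕ) : ℤ) by push_cast; ring] at h3
    have := X.cut_id h3 (k := 1) le_rfl
    rwa [show (n : ℤ) - (n + 1) + 2 = -((1 : ℕ) : ℤ) + 2 * ((1 : ℕ) : ℤ) by push_cast; ring]
  rw [e] at h2
  have h3 := (X.sp_ker n _ _ _ h2).1 (by
    rwa [show (n : ℤ) + 1 - 2 - 1 = n - 1 - 1 by ring])
  obtain ⟨y, hy, hyx⟩ := h3
  rw [show (n : ℤ) - (n + 1 - 2) - 1 = 0 by ring] at hy hyx
  have hy0 : y ∈ X.E₁ ((0 : ℕ) : ℤ) ((n : ℤ) - 1) := by
    rw [Nat.cast_zero]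
    rwa [show (n : ℤ) + 1 - 2 = n - 1 by ring] at hy
  have hx0 : X.diff (-(((0 : ℕ) : ℤ) + 1)) (X.diff ((0 : ℕ) : ℤ) y) = 0 := by
    rw [Nat.cast_zero, hyx]
    have := h1.2
    rw [show (n : ℤ) - (n + 1) = -(0 + 1) by ring] at this
    exact this
  obtain ⟨h4, y', hy', h5⟩ := reduce X.toSpecialFibre 0 ((n : ℤ) - 1) hy0 hx0
  rw [Nat.cast_zero] at hy' h5
  have h6 : y 0 ∈ X.gr 0 ((n : ℤ) - 1) := by
    have := (hy0 0).1
    rwa [show (n : ℤ) - 1 + ((0 : ℕ) : ℤ) - ((0 : ℕ) : ℤ) = n - 1 by ring] at this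
  have h7 := h (y 0) h6 h4
  have h8 : x ∈ X.coboundaries (-1) ((n : ℤ) + 1) := by
    rw [← hyx, h5]
    refine Submodule.add_mem _ ?_ h7
    refine ⟨y', ?_, ?_⟩
    · rwa [show (-1 : ℤ) - 1 = -(0 + 1) - 1 by ring,
        show (n : ℤ) + 1 = n - 1 + 2 * (0 + 1) by ring]
    · rw [show (-1 : ℤ) - 1 = -(0 + 1) - 1 by ring]
  have h9 := (X.sp_ker n _ _ _ hx).2 (by
    rwa [show (n : ℤ) - (n + 1) = -1 by ring])
  exact h9

/-- From the first power of `N` to the double locus. -/
lemma cond_of_injAt (h : InjAt X n 1) : DoubleLocusCondition X.toSpecialFibre := by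
  classical
  intro y hy hg
  set x : X.C := Pi.single 1 (X.res 0 y) with hx
  have hcol : InColumn (-1) 1 := ⟨by norm_num, ⟨1, by norm_num⟩⟩
  have hxE : x ∈ X.E₁ (-1) ((n : ℤ) + 1) := by
    apply X.single_mem hcol
    have := X.res_gr 0 _ y hy
    rwa [show (n : ℤ) + 1 + -1 - ((1 : ℕ) : ℤ) = n - 1 by push_cast; ring]
  have hxc : x ∈ X.cocycles (-1) ((n : ℤ) + 1) := by
    refine ⟨hxE, ?_⟩
    rw [SetLike.mem_coe, LinearMap.mem_ker]
    funext b
    rw [X.diff_apply]
    by_cases hc : InColumn (-1 + 1) b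
    · rw [X.cut_of hc, Pi.add_apply, X.gysC_apply]
      have hc2 := hc.2
      have hb1 : b ≠ 1 := by
        rintro rfl
        norm_num at hc2
      cases b with
      | zero =>
        rw [X.resC_zero, zero_add]
        exact hg
      | succ b =>
        rw [X.resC_succ]
        by_cases hb : b = 1
        · subst hb
          rw [hx, Pi.single_eq_same, Pi.single_eq_of_ne (by omega), map_zero, add_zero]
          exact X.res_res 0 y
        · rw [hx, Pi.single_eq_of_ne hb, map_zero, Pi.single_eq_of_ne (by omega), map_zero,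
            add_zero]
          rfl
    · rw [X.cut_of_not hc]
      rfl
  have hxb : x ∈ X.coboundaries 1 ((n : ℤ) - 1) := by
    have hcol0 : InColumn 0 0 := ⟨by simp, ⟨0, by simp⟩⟩
    refine ⟨Pi.single 0 y, ?_, ?_⟩
    · rw [show (1 : ℤ) - 1 = 0 by norm_num]
      apply X.single_mem hcol0
      simpa using hy
    · rw [show (1 : ℤ) - 1 = 0 by norm_num]
      funext b
      rw [X.diff_apply]
      by_cases hc : InColumn (0 + 1) b
      · rw [X.cut_of hc, Pi.add_apply, X.gysC_apply, Pi.single_eq_of_ne (by omega), map_zero,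
          add_zero]
        cases b with
        | zero =>
          have := hc.1
          rw [zero_add, abs_one] at this
          norm_num at this
        | succ b =>
          rw [X.resC_succ]
          by_cases hb : b = 0
          · subst hb
            rw [Pi.single_eq_same, hx]
            show _ = (Pi.single 1 (X.res 0 y) : X.C) 1
            rw [Pi.single_eq_same]
          · rw [Pi.single_eq_of_ne hb, map_zero, hx, Pi.single_eq_of_ne (by omega)]
      · rw [X.cut_of_not hc, hx]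
        by_cases hb : b = 1
        · subst hb
          exact absurd (by refine ⟨by norm_num, ⟨0, by norm_num⟩⟩) hc
        · rw [Pi.single_eq_of_ne hb]
  obtain ⟨v, hv⟩ := X.sp_right n ((n : ℤ) + 1) x (by
    rwa [show (n : ℤ) - (n + 1) = -1 by ring])
  have h2 := X.sp_N n _ _ _ hv
  have e : X.cut ((n : ℤ) - (n + 1) + 2) x = x := by
    have := X.cut_id (a := 1) (w := (n : ℤ) + 1) (x := x) (by
      rwa [show -((1 : ℕ) : ℤ) = -1 by norm_num]) (k := 1) le_rfl
    rwa [show (n : ℤ) - (n + 1) + 2 = -((1 : ℕ) : ℤ) + 2 * ((1 : ℕ) : ℤ) by push_cast; ring]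
  rw [e] at h2
  have h3 := (X.sp_ker n _ _ _ h2).2 (by
    rwa [show (n : ℤ) - (n + 1 - 2) = 1 by ring, show (n : ℤ) + 1 - 2 = n - 1 by ring])
  have h4 := h v (by rw [Nat.cast_one]; exact (X.sp_mem n _ _ _ hv).1) (by
    rw [pow_one, Nat.cast_one]
    rwa [show (n : ℤ) - 1 - 1 = n + 1 - 2 - 1 by ring])
  rw [Nat.cast_one] at h4
  have h5 := (X.sp_ker n _ _ _ hv).1 h4
  rwa [show (n : ℤ) - (n + 1) = -1 by ring] at h5

/-- From `W` to the `E_2` term. -/
lemma nInj_of_injAt (i r : ℕ) (h : InjAt X i r) : NInj X.diff X.tot r ((i : ℤ) - n) := by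
  rintro x ⟨h1, h2⟩
  rw [X.bd_eq] at h2 ⊢
  rw [X.zc_eq] at h1
  rw [show (n : ℤ) + (i - n) - (r : ℤ) = i - r by ring] at h2
  rw [show (n : ℤ) + (i - n) - -(r : ℤ) = i + r by ring] at h1 ⊢
  obtain ⟨v, hv⟩ := X.sp_right i ((i : ℤ) + r) x (by
    rwa [show (i : ℤ) - (i + r) = -r by ring])
  have h3 := X.N_pow_sp hv r le_rfl
  have h4 := (X.sp_ker i _ _ _ h3).2 (by
    rwa [show (i : ℤ) - ((i : ℤ) + r - 2 * r) = r by ring,
      show (i : ℤ) + r - 2 * r = i - r by ring])
  have h5 := h v (X.sp_mem i _ _ _ hv).1 (by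
    rwa [show (i : ℤ) - r - 1 = i + r - 2 * r - 1 by ring])
  have h6 := (X.sp_ker i _ _ _ hv).1 h5
  rwa [show (i : ℤ) - (i + r) = -r by ring] at h6

end step

section tate

/-- The formula for the powers of `N` on the tensor product with `H^1(E)`. -/
lemma pow_tate {V V' : Type v} [AddCommGroup V] [Module Ω V] [AddCommGroup V'] [Module Ω V']
    {N : Module.End Ω V} {W : ℤ → Submodule Ω V} {N' : Module.End Ω V'}
    {W' : ℤ → Submodule Ω V'} {J : V × V →ₗ[Ω] V'} (hJ : IsTateTensor N W N' W' J) (x : V)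
    (r k : ℕ) :
    (N' ^ k) (J (-N x, (r : Ω) • x)) = J (-(N ^ (k + 1)) x, ((r : Ω) - k) • (N ^ k) x) := by
  induction k with
  | zero => simp
  | succ k ih =>
    rw [pow_succ', Module.End.mul_apply, ih, hJ.mon]
    congr 1
    ext
    · show N (-(N ^ (k + 1)) x) = -(N ^ (k + 1 + 1)) x
      rw [map_neg, pow_succ' N (k + 1), Module.End.mul_apply]
    · show -(N ^ (k + 1)) x + N (((r : Ω) - k) • (N ^ k) x) =
        ((r : Ω) - ((k + 1 : ℕ) : Ω)) • (N ^ (k + 1)) x
      rw [map_smul, ← Module.End.mul_apply, ← pow_succ']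
      push_cast
      module

/-- The step of the induction: from `N ^ r` for the product with a Tate curve to `N ^ (r + 1)`. -/
lemma injAt_succ {X : SemistableModel.{u, v} Ω Γ n q} {X' : SemistableModel.{u, v} Ω Γ (n + 1) q}
    (hT : IsTateProduct X X') {r : ℕ} (hr : 1 ≤ r) (h : InjAt X' (n + 1) r) :
    InjAt X n (r + 1) := by
  obtain ⟨J, hJ⟩ := hT
  intro x hx hN
  have hr0 : (r : Ω) ≠ 0 := Nat.cast_ne_zero.2 (by omega)
  have h1 : J (-X.N n x, (r : Ω) • x) ∈ X'.W (n + 1) (((n + 1 : ℕ) : ℤ) + r) := by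
    rw [hJ.weight]
    constructor
    · apply Submodule.neg_mem
      have := W_N X n _ x hx
      rwa [show ((n + 1 : ℕ) : ℤ) + r - 2 = n + ((r + 1 : ℕ) : ℤ) - 2 by push_cast; ring]
    · apply Submodule.smul_mem
      rwa [show ((n + 1 : ℕ) : ℤ) + r = n + ((r + 1 : ℕ) : ℤ) by push_cast; ring]
  have h2 : (X'.N (n + 1) ^ r) (J (-X.N n x, (r : Ω) • x)) ∈
      X'.W (n + 1) (((n + 1 : ℕ) : ℤ) - r - 1) := by
    rw [pow_tate hJ, sub_self, zero_smul, hJ.weight]
    constructor
    · apply Submodule.neg_mem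
      rwa [show ((n + 1 : ℕ) : ℤ) - r - 1 - 2 = n - ((r + 1 : ℕ) : ℤ) - 1 by push_cast; ring]
    · exact Submodule.zero_mem _
  have h3 := h _ h1 h2
  rw [hJ.weight] at h3
  have h4 := h3.2
  rw [Submodule.smul_mem_iff _ hr0] at h4
  rwa [show (n : ℤ) + ((r + 1 : ℕ) : ℤ) - 1 = ((n + 1 : ℕ) : ℤ) + r - 1 by push_cast; ring]

lemma injAt_sect {X : SemistableModel.{u, v} Ω Γ (n + 1) q} {X' : SemistableModel.{u, v} Ω Γ n q}
    (hT : IsSection X X') {i : ℕ} (hi : i ≤ n) {r : ℕ} (h : InjAt X' i r) : InjAt X i r := by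
  obtain ⟨f, hf⟩ := hT i hi
  intro x hx hN
  have hpow : ∀ k : ℕ, (X'.N i ^ k) (f x) = f ((X.N i ^ k) x) := by
    intro k
    induction k with
    | zero => rfl
    | succ k ih => rw [pow_succ', Module.End.mul_apply, ih, hf.mon, pow_succ', Module.End.mul_apply]
  have hw : ∀ w x, f x ∈ X'.W i w ↔ x ∈ X.W i w := fun w x => by
    have := hf.weight w x
    rwa [Nat.cast_zero, add_zero] at this
  rw [← hw] at hx hN ⊢
  exact h _ hx (by rw [hpow]; exact hN)

/-- The injectivity is trivial for the powers of exponent larger than the degree. -/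
lemma injAt_big (X : SemistableModel.{u, v} Ω Γ n q) {i a : ℕ} (h : i < a) : InjAt X i a := by
  intro v hv _
  obtain ⟨x, hx⟩ := X.sp_left i _ v hv
  have h1 := (X.sp_mem i _ _ _ hx).2.1
  have h2 : x = 0 := by
    funext b
    by_cases hc : InColumn ((i : ℤ) - (i + a)) b
    · have h3 := (h1 b).1
      have h4 := hc.1
      rw [show (i : ℤ) - (i + a) = -(a : ℤ) by ring, abs_neg, Nat.abs_cast] at h4
      rw [X.gr_eq_bot b _ (Or.inl (by omega)), Submodule.mem_bot] at h3
      exact h3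
    · exact (h1 b).2 hc
  subst h2
  exact (X.sp_ker i _ _ _ hx).2 (Submodule.zero_mem _)

variable {𝒳 : ∀ n, Set (Degeneration.{u, v} Ω Γ n q)} (h𝒳 : IsClosedClass 𝒳)
include h𝒳

lemma injAt_mid {M : ℕ} (h : ∀ n < M, ∀ X ∈ 𝒳 n, InjAt X.toSemistableModel n 1) (r : ℕ) :
    ∀ n, n + r < M → ∀ X ∈ 𝒳 n, InjAt X.toSemistableModel n (r + 1) := by
  induction r with
  | zero =>
    intro n hn X hX
    exact h n (by omega) X hX
  | succ r ih =>
    intro n hn X hX
    obtain ⟨X', hX', hT⟩ := h𝒳.tate n X hX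
    exact injAt_succ hT (by omega) (ih (n + 1) (by omega) X' hX')

lemma injAt_low {M : ℕ} (h : ∀ n < M, ∀ X ∈ 𝒳 n, InjAt X.toSemistableModel n 1) (r : ℕ) (i : ℕ)
    (hi : i + r < M) :
    ∀ k : ℕ, ∀ X ∈ 𝒳 (i + k), InjAt X.toSemistableModel i (r + 1) := by
  intro k
  induction k with
  | zero =>
    intro X hX
    exact injAt_mid h𝒳 h r i hi X hX
  | succ k ih =>
    intro X hX
    obtain ⟨X', hX', hS⟩ := h𝒳.sect (i + k) X hX
    exact injAt_sect hS (by omega) (ih X' hX')

/-- mw purity in relative dimension `n` from the injectivity of `N` on the graded piece of weight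
`m + 1` of the middle cohomology, in relative dimension `m < 2 n`. -/
theorem pure_of_injAt {n : ℕ} (h : ∀ m < 2 * n, ∀ X ∈ 𝒳 m, InjAt X.toSemistableModel m 1)
    (X : Degeneration.{u, v} Ω Γ n q) (hX : X ∈ 𝒳 n) : IsPure X.toSemistableModel := by
  intro k
  have low : ∀ i ≤ n, ∀ a : ℕ, 1 ≤ a → NInj X.diff X.tot a ((i : ℤ) - n) := by
    intro i hi a ha
    apply nInj_of_injAt X.toSemistableModel i a
    rcases Nat.lt_or_ge i a with hai | hai
    · exact injAt_big X.toSemistableModel hai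
    · obtain ⟨m, rfl⟩ := Nat.exists_eq_add_of_le hi
      obtain ⟨r, rfl⟩ : ∃ r, a = r + 1 := ⟨a - 1, by omega⟩
      exact injAt_low h𝒳 h r i (by omega) m X hX
  have key : ∀ a : ℕ, 1 ≤ a → NInj X.diff X.tot a ((k : ℤ) - n) := by
    intro a ha
    rcases le_total k n with hk | hk
    · exact low k hk a ha
    · rcases le_total k (2 * n) with hk2 | hk2
      · have h1 := low (2 * n - k) (by omega) a ha
        rw [show (((2 * n - k : ℕ) : ℤ) - n) = -((k - n : ℕ) : ℤ) by omega] at h1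
        have h2 := X.lefComplex.nInj_pos a (by exact_mod_cast ha) (k - n) h1
        rwa [show ((k - n : ℕ) : ℤ) = (k : ℤ) - n by omega] at h2
      · by_cases hk3 : k = 2 * n
        · have h1 := low (2 * n - k) (by omega) a ha
          rw [show (((2 * n - k : ℕ) : ℤ) - n) = -((k - n : ℕ) : ℤ) by omega] at h1
          have h2 := X.lefComplex.nInj_pos a (by exact_mod_cast ha) (k - n) h1
          rwa [show ((k - n : ℕ) : ℤ) = (k : ℤ) - n by omega] at h2
        · rintro x ⟨h1, -⟩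
          have h2 : X.tot (-(a : ℤ)) ((k : ℤ) - n) = ⊥ := by
            apply X.tot_bdd
            right
            rw [abs_of_nonneg (by omega)]
            omega
          have h3 := h1.1
          rw [h2] at h3
          have h4 : x = 0 := by simpa using h3
          rw [h4]
          exact Submodule.zero_mem _
  apply X.toSemistableModel.isMWPure_of k key
  intro a ha
  exact (X.lefDual.good_of_inj X.lefComplex X.lefComplex a (by exact_mod_cast ha) _
    (key a ha) (key a ha)).surj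

end tate

end Pool.Agent.Helper812_WR
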