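import Pool.Agent.Helper812_WR.Main

/-!
# Reduction to primitive Tate classes
-/

namespace Pool.Agent.Helper812_WR

universe u v

open Module Pool.Agent.Y143 Pool.Agent.X302.MW Pool.Agent.Helper812_WM

section gen

variable {Ω : Type*} [Field Ω] {C : Type*} [AddCommGroup C] [Module Ω C]

lemma sub_pow_mem {T : Module.End Ω C} (γ : Ω) {S : Submodule Ω C} (hS : ∀ x ∈ S, T x ∈ S)
    {x : C} (hx : x ∈ S) (k : ℕ) : ((T - γ • (1 : Module.End Ω C)) ^ k) x ∈ S := by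
  induction k with
  | zero => exact hx
  | succ k ih =>
    rw [pow_succ', Module.End.mul_apply]
    exact S.sub_mem (hS _ ih) (S.smul_mem _ ih)

/-- Generalized eigenvectors modulo `B` are congruent to generalized eigenvectors. -/
lemma exists_gen_of_mod [IsAlgClosed Ω] [FiniteDimensional Ω C] (T : Module.End Ω C) (γ : Ω)
    {S B : Submodule Ω C} (hS : ∀ x ∈ S, T x ∈ S) (hB : ∀ x ∈ B, T x ∈ B) {x : C} (hx : x ∈ S)
    (hxB : x ∉ B) (k : ℕ) (hγ : ((T - γ • (1 : Module.End Ω C)) ^ k) x ∈ B) :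
    ∃ y ∈ S, y ∉ B ∧ y ∈ T.maxGenEigenspace γ := by
  let T1 : Module.End Ω S := T.restrict hS
  let D : Submodule Ω S := B.comap S.subtype
  have hD : D ≤ D.comap T1 := fun y hy => hB _ hy
  let T2 : Module.End Ω (S ⧸ D) := D.mapQ D T1 hD
  have hT : ∀ y, D.mkQ (T1 y) = T2 (D.mkQ y) := fun y => by
    rw [Submodule.mkQ_apply, Submodule.mkQ_apply, Submodule.mapQ_apply]
  have hk1 : ∀ (k : ℕ) (y : S), ((T2 - γ • (1 : Module.End Ω (S ⧸ D))) ^ k) (D.mkQ y) =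
      D.mkQ (((T1 - γ • (1 : Module.End Ω S)) ^ k) y) := by
    intro k
    induction k with
    | zero => intro y; rfl
    | succ k ih =>
      intro y
      have h3 : (T2 - γ • (1 : Module.End Ω (S ⧸ D))) (D.mkQ y) =
          D.mkQ ((T1 - γ • (1 : Module.End Ω S)) y) := by
        show T2 (D.mkQ y) - γ • D.mkQ y = D.mkQ (T1 y - γ • y)
        rw [map_sub, map_smul, hT]
      rw [pow_succ, Module.End.mul_apply, h3, ih, pow_succ (T1 - γ • (1 : Module.End Ω S)),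
        Module.End.mul_apply]
  have hk2 : ∀ (k : ℕ) (y : S), ((((T1 - γ • (1 : Module.End Ω S)) ^ k) y : S) : C) =
      ((T - γ • (1 : Module.End Ω C)) ^ k) y := by
    intro k
    induction k with
    | zero => intro y; rfl
    | succ k ih =>
      intro y
      rw [pow_succ, Module.End.mul_apply, ih, pow_succ, Module.End.mul_apply]
      rfl
  have h1 : D.mkQ ⟨x, hx⟩ ∈ T2.maxGenEigenspace γ := by
    rw [Module.End.mem_maxGenEigenspace]
    refine ⟨k, ?_⟩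
    rw [hk1, Submodule.mkQ_apply, Submodule.Quotient.mk_eq_zero]
    show ((((T1 - γ • (1 : Module.End Ω S)) ^ k) ⟨x, hx⟩ : S) : C) ∈ B
    rw [hk2]
    exact hγ
  obtain ⟨y, hy, hyx⟩ := lift_gen D.mkQ (Submodule.mkQ_surjective D) T1 T2 hT h1
  refine ⟨y, y.2, fun hyB => hxB ?_, map_gen S.subtype T1 T (fun _ => rfl) hy⟩
  rw [Submodule.mkQ_apply, Submodule.mkQ_apply, Submodule.Quotient.eq] at hyx
  have h2 : (y : C) - x ∈ B := hyx
  have h3 := Submodule.sub_mem _ hyB h2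
  rwa [sub_sub_cancel] at h3

lemma mem_Wt_unit {T : Module.End Ω C} {α : Ω} {x : C} :
    x ∈ Wt (fun _ : Unit => T) (fun _ => α) ↔ x ∈ T.maxGenEigenspace α := by
  unfold Wt
  rw [Submodule.mem_iInf]
  exact ⟨fun h => h (), fun h _ => h⟩

end gen

variable {Ω : Type u} [Field Ω] [CharZero Ω] {Γ : Type} {n q : ℕ}

section special

variable (X : SpecialFibre.{u, v} Ω Γ n q)

/-- The Frobenius as a symmetry of the weight spectral sequence. -/
lemma frobSym : Sym X.diff X.lefC X.tot (fun i (_ : Unit) => X.actC i X.frob)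
    (fun _ : Unit => X.cyc' X.frob) where
  comm i _ _ := X.sym.comm i X.frob X.frob
  stab i j _ x hx := X.sym.stab i j X.frob x hx
  shift i k _ x := X.sym.shift i k X.frob x
  dT i _ x := X.sym.dT i X.frob x
  LT i _ x := X.sym.LT i X.frob x
  cne _ := X.cyc'_ne X.frob

/-- The Tate part of the weight spectral sequence, for the root of unity `ζ`. -/
def tpart (ζ : Ω) : ℤ → ℤ → Submodule Ω X.C :=
  Cl X.tot (fun i (_ : Unit) => X.actC i X.frob) (fun _ : Unit => X.cyc' X.frob) (fun _ => ζ) n 0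

lemma chr_at (ζ : Ω) {i : ℤ} {c : ℕ} (hc : 2 * (c : ℤ) = i + 1) :
    chr (fun _ : Unit => X.cyc' X.frob) (fun _ => ζ) n 0 (-1) (i - n) =
      fun _ => (q : Ω) ^ c * ζ := by
  funext g
  unfold chr ex
  rw [show ((n : ℤ) + (i - n) - -1 - 0) / 2 = c by omega, zpow_natCast]
  unfold SpecialFibre.cyc'
  rw [X.cyc_frob]

variable [IsAlgClosed Ω]

lemma tpart_lef (Y : Degeneration.{u, v} Ω Γ n q) (ζ : Ω) :
    LefComplex Y.diff Y.lefC (tpart Y.toSpecialFibre ζ) :=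
  (frobSym Y.toSpecialFibre).cl Y.lefComplex (fun _ => ζ) n 0

lemma zc_tpart (ζ : Ω) {i : ℤ} {c : ℕ} (hc : 2 * (c : ℤ) = i + 1) {x : X.C} :
    x ∈ Zc X.diff (tpart X ζ) (-1) (i - n) ↔ x ∈ X.cocycles (-1) (i + 1) ∧
      x ∈ Module.End.maxGenEigenspace (X.actC (-1) X.frob) ((q : Ω) ^ c * ζ) := by
  have e : (n : ℤ) + (i - n) - -1 = i + 1 := by ring
  constructor
  · rintro ⟨⟨h1, h2⟩, h3⟩
    have h4 : x ∈ X.E₁ (-1) (n + (i - n) - -1) := h1
    rw [e] at h4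
    rw [SetLike.mem_coe, chr_at X ζ hc, mem_Wt_unit] at h2
    exact ⟨⟨h4, h3⟩, h2⟩
  · rintro ⟨⟨h1, h2⟩, h3⟩
    refine ⟨⟨?_, ?_⟩, h2⟩
    · show x ∈ X.E₁ (-1) (n + (i - n) - -1)
      rwa [e]
    · rw [SetLike.mem_coe, chr_at X ζ hc, mem_Wt_unit]
      exact h3

lemma bd_tpart (ζ : Ω) {i : ℤ} {c : ℕ} (hc : 2 * (c : ℤ) = i + 1) {x : X.C}
    (hx : x ∈ Module.End.maxGenEigenspace (X.actC (-1) X.frob) ((q : Ω) ^ c * ζ)) :
    x ∈ Bd X.diff (tpart X ζ) (-1) (i - n) ↔ x ∈ X.coboundaries (-1) (i + 1) := by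
  have e : (n : ℤ) + (i - n) - -1 = i + 1 := by ring
  constructor
  · intro h
    have h1 := Sym.bd_cl_le _ _ _ _ _ h
    rwa [X.bd_eq, e] at h1
  · intro h
    rw [← e, ← X.bd_eq] at h
    have h1 := (frobSym X).prj_bd (fun _ => ζ) n 0 h
    rwa [prj_of_mem] at h1
    rw [chr_at X ζ hc, mem_Wt_unit]
    exact hx

lemma bd_tpart' (ζ : Ω) {i : ℤ} {c : ℕ} (hc : 2 * (c : ℤ) = i + 1) {x : X.C}
    (hx : x ∈ Module.End.maxGenEigenspace (X.actC (-1) X.frob) ((q : Ω) ^ c * ζ)) :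
    x ∈ Bd X.diff (tpart X ζ) 1 (i - n) ↔ x ∈ X.coboundaries 1 (i - 1) := by
  have e : (n : ℤ) + (i - n) - 1 = i - 1 := by ring
  constructor
  · intro h
    have h1 := Sym.bd_cl_le _ _ _ _ _ h
    rwa [X.bd_eq, e] at h1
  · intro h
    rw [← e, ← X.bd_eq] at h
    have h1 := (frobSym X).prj_bd (fun _ => ζ) n 0 h
    rwa [prj_of_mem] at h1
    have h2 := mem_Wt_unit.2 hx
    rw [← chr_at X ζ hc] at h2
    have h3 := (frobSym X).neg_wt h2
    rw [neg_neg] at h3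
    have h4 := chr_neg (c := fun _ : Unit => X.cyc' X.frob) (χ := fun _ => ζ)
      (fun _ => X.cyc'_ne X.frob) n 0 (-1) (i - n)
    rw [neg_neg] at h4
    rw [h4]
    exact h3

end special

/-- `N` is injective on the Tate classes in the graded piece of weight `i + 1` of `H^i`. -/
def TateInj (X : SemistableModel.{u, v} Ω Γ n q) (i : ℕ) : Prop :=
  ∀ c : ℕ, 2 * c = i + 1 → ∀ γ : Ω, IsTatePower q c γ → ∀ v ∈ X.W i (i + 1),
    X.N i v ∈ X.W i (i - 2) →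
      (∃ k : ℕ, ((X.actV i X.frob - γ • (1 : Module.End Ω (X.V i))) ^ k) v ∈ X.W i i) → v ∈ X.W i i

lemma tate_twist {c : ℕ} (hq : (q : Ω) ≠ 0) {γ : Ω} (h : IsTatePower q c γ) :
    ∃ ζ : Ω, (∃ k : ℕ, 0 < k ∧ ζ ^ k = 1) ∧ γ = (q : Ω) ^ c * ζ := by
  obtain ⟨k, hk, hk'⟩ := h
  refine ⟨((q : Ω) ^ c)⁻¹ * γ, ⟨k, hk, ?_⟩, ?_⟩
  · rw [mul_pow, hk', inv_pow, inv_mul_cancel₀ (pow_ne_zero _ (pow_ne_zero _ hq))]
  · rw [mul_inv_cancel_left₀ (pow_ne_zero _ hq)]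

lemma twist_tate {c : ℕ} {ζ : Ω} (h : ∃ k : ℕ, 0 < k ∧ ζ ^ k = 1) :
    IsTatePower q c ((q : Ω) ^ c * ζ) := by
  obtain ⟨k, hk, hk'⟩ := h
  exact ⟨k, hk, by rw [mul_pow, hk', mul_one]⟩

section compare

variable (X : SemistableModel.{u, v} Ω Γ n q)

lemma sp_pow {i : ℕ} {w : ℤ} {v : X.V i} {x : X.C} (γ : Ω) (h : (v, x) ∈ X.sp i w) (k : ℕ) :
    (((X.actV i X.frob - γ • (1 : Module.End Ω (X.V i))) ^ k) v,
      ((X.actC (i - w) X.frob - γ • (1 : Module.End Ω X.C)) ^ k) x) ∈ X.sp i w := by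
  induction k with
  | zero => exact h
  | succ k ih =>
    rw [pow_succ', Module.End.mul_apply, pow_succ', Module.End.mul_apply]
    exact Submodule.sub_mem _ (X.sp_act i w _ _ X.frob ih) (Submodule.smul_mem _ γ ih)

variable [IsAlgClosed Ω]

/-- From the cohomology of the generic fibre to the `E_2` term. -/
lemma nInj_of_tateInj {i : ℕ} (h : TateInj X i) {ζ : Ω} (hζ : ∃ k : ℕ, 0 < k ∧ ζ ^ k = 1) {c : ℕ}
    (hc : 2 * c = i + 1) : NInj X.diff (tpart X.toSpecialFibre ζ) 1 ((i : ℤ) - n) := by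
  have hc' : 2 * (c : ℤ) = (i : ℤ) + 1 := by exact_mod_cast hc
  rintro x ⟨h1, h2⟩
  rw [SetLike.mem_coe, zc_tpart X.toSpecialFibre ζ hc'] at h1
  obtain ⟨h1, hg⟩ := h1
  rw [SetLike.mem_coe, bd_tpart' X.toSpecialFibre ζ hc' hg] at h2
  rw [bd_tpart X.toSpecialFibre ζ hc' hg]
  obtain ⟨v, hv⟩ := X.sp_right i ((i : ℤ) + 1) x (by
    rwa [show (i : ℤ) - (i + 1) = -1 by ring])
  have e : X.cut ((i : ℤ) - (i + 1) + 2) x = x := by
    have := X.cut_id (a := 1) (w := (i : ℤ) + 1) (x := x) (by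
      rw [show -((1 : ℕ) : ℤ) = -1 by norm_num]; exact h1.1) (k := 1) le_rfl
    rwa [show (i : ℤ) - (i + 1) + 2 = -((1 : ℕ) : ℤ) + 2 * ((1 : ℕ) : ℤ) by push_cast; ring]
  have h3 := X.sp_N i _ _ _ hv
  rw [e] at h3
  have h4 := (X.sp_ker i _ _ _ h3).2 (by
    rwa [show (i : ℤ) - (i + 1 - 2) = 1 by ring, show (i : ℤ) + 1 - 2 = i - 1 by ring])
  have h5 := h c hc _ (twist_tate hζ) v (X.sp_mem i _ _ _ hv).1 (by
    rwa [show (i : ℤ) - 2 = i + 1 - 2 - 1 by ring]) (by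
    obtain ⟨k, hk⟩ := (Module.End.mem_maxGenEigenspace _ _ _).1 hg
    refine ⟨k, ?_⟩
    have h6 := sp_pow X ((q : Ω) ^ c * ζ) hv k
    have h7 := (X.sp_ker i _ _ _ h6).2 (by
      rw [show (i : ℤ) - (i + 1) = -1 by ring, hk]
      exact Submodule.zero_mem _)
    rwa [show (i : ℤ) + 1 - 1 = i by ring] at h7)
  have h6 := (X.sp_ker i _ _ _ hv).1 (by rwa [show (i : ℤ) + 1 - 1 = i by ring])
  rwa [show (i : ℤ) - (i + 1) = -1 by ring] at h6

/-- From the `E_2` term to the cohomology of the generic fibre. -/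
lemma tateInj_of_nInj {i : ℕ} (h : ∀ c : ℕ, 2 * c = i + 1 → ∀ ζ : Ω,
    (∃ k : ℕ, 0 < k ∧ ζ ^ k = 1) →
      NInj X.diff (tpart X.toSpecialFibre ζ) 1 ((i : ℤ) - n)) : TateInj X i := by
  intro c hc γ hγ v hv hN hk
  have hc' : 2 * (c : ℤ) = (i : ℤ) + 1 := by exact_mod_cast hc
  obtain ⟨ζ, hζ, rfl⟩ := tate_twist (Nat.cast_ne_zero.2 X.q_ne) hγ
  obtain ⟨k, hk⟩ := hk
  have e0 : (i : ℤ) - (i + 1) = -1 := by ring
  have e1 : (i : ℤ) - (i + 1) + 2 = 1 := by ring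
  have e2 : (i : ℤ) - (i + 1 - 2) = 1 := by ring
  have e3 : (i : ℤ) + 1 - 2 = i - 1 := by ring
  by_contra hcon
  obtain ⟨x, hx⟩ := X.sp_left i _ v hv
  have h1 := (X.sp_mem i _ _ _ hx).2
  have h2 := X.sp_N i _ _ _ hx
  have e : X.cut 1 x = x := by
    have h3 := h1.1
    rw [e0] at h3
    have := X.cut_id (a := 1) (w := (i : ℤ) + 1) (x := x) (by
      rwa [show -((1 : ℕ) : ℤ) = -1 by norm_num]) (k := 1) le_rfl
    rwa [show -((1 : ℕ) : ℤ) + 2 * ((1 : ℕ) : ℤ) = 1 by norm_num] at this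
  rw [e1, e] at h2
  have h3 := (X.sp_ker i _ _ _ h2).1 (by
    rwa [show (i : ℤ) + 1 - 2 - 1 = i - 2 by ring])
  rw [e2, e3] at h3
  have h4 : x ∉ X.coboundaries (-1) (i + 1) := by
    intro h4
    apply hcon
    have := (X.sp_ker i _ _ _ hx).2 (by rwa [e0])
    rwa [show (i : ℤ) + 1 - 1 = i by ring] at this
  have h5 := (X.sp_ker i _ _ _ (sp_pow X ((q : Ω) ^ c * ζ) hx k)).1 (by
    rwa [show (i : ℤ) + 1 - 1 = i by ring])
  rw [e0] at h1 h5
  -- the generalized eigenvector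
  let S : Submodule Ω X.C := X.cocycles (-1) (i + 1) ⊓ X.coboundaries 1 (i - 1)
  have hshift : ∀ z : X.C, X.actC (-1) X.frob z = ((X.cyc X.frob : Ωˣ) : Ω) •
      X.actC 1 X.frob z := by
    intro z
    have := X.actC_shift 1 1 X.frob z
    rwa [zpow_one, show (1 : ℤ) - 2 * 1 = -1 by norm_num] at this
  have hS : ∀ z ∈ S, X.actC (-1) X.frob z ∈ S := by
    rintro z ⟨hz1, hz2⟩
    refine ⟨zc_stable X _ _ hz1, ?_⟩
    rw [hshift]
    exact Submodule.smul_mem _ _ (X.actC_bd _ _ _ hz2)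
  obtain ⟨x', hx'S, hx'B, hx'g⟩ := exists_gen_of_mod (X.actC (-1) X.frob) ((q : Ω) ^ c * ζ) hS
    (fun z hz => X.actC_bd _ _ _ hz) ⟨h1, h3⟩ h4 k h5
  apply hx'B
  rw [← bd_tpart X.toSpecialFibre ζ hc' hx'g]
  apply h c hc ζ hζ
  refine ⟨?_, ?_⟩
  · rw [SetLike.mem_coe, zc_tpart X.toSpecialFibre ζ hc']
    exact ⟨hx'S.1, hx'g⟩
  · rw [SetLike.mem_coe, bd_tpart' X.toSpecialFibre ζ hc' hx'g]
    exact hx'S.2

end compare

/-- Hyperplane sections. -/
lemma tateInj_sect {X : SemistableModel.{u, v} Ω Γ (n + 1) q}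
    {X' : SemistableModel.{u, v} Ω Γ n q} (hT : IsSection X X') {i : ℕ} (hi : i ≤ n)
    (h : TateInj X' i) : TateInj X i := by
  obtain ⟨f, hf⟩ := hT i hi
  have hw : ∀ w x, f x ∈ X'.W i w ↔ x ∈ X.W i w := fun w x => by
    have := hf.weight w x
    rwa [Nat.cast_zero, add_zero] at this
  have hpow : ∀ (γ : Ω) (k : ℕ) (x : X.V i),
      ((X'.actV i X'.frob - γ • (1 : Module.End Ω (X'.V i))) ^ k) (f x) =
        f (((X.actV i X.frob - γ • (1 : Module.End Ω (X.V i))) ^ k) x) := by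
    intro γ k
    induction k with
    | zero => intro x; rfl
    | succ k ih =>
      intro x
      have h3 : (X'.actV i X'.frob - γ • (1 : Module.End Ω (X'.V i))) (f x) =
          f ((X.actV i X.frob - γ • (1 : Module.End Ω (X.V i))) x) := by
        show X'.actV i X'.frob (f x) - γ • f x = f (X.actV i X.frob x - γ • x)
        rw [map_sub, map_smul, hf.frob, one_smul]
      rw [pow_succ, Module.End.mul_apply, h3, ih, pow_succ, Module.End.mul_apply]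
  intro c hc γ hγ v hv hN hk
  obtain ⟨k, hk⟩ := hk
  rw [← hw] at hv hN hk ⊢
  exact h c hc γ hγ (f v) hv (by rw [hf.mon]; exact hN) ⟨k, by rw [hpow]; exact hk⟩

variable [IsAlgClosed Ω]

/-- From primitive Tate classes to Tate classes, if the statement holds in degree `n - 2`. -/
lemma tateInj_of_prim (X : Degeneration.{u, v} Ω Γ n q)
    (h : PrimitiveTateCondition X.toSpecialFibre)
    (h2 : ∀ i, i + 2 = n → TateInj X.toSemistableModel i) : TateInj X.toSemistableModel n := by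
  apply tateInj_of_nInj
  intro c hcn ζ hζ
  obtain ⟨m, hm⟩ : ∃ m, n = 2 * m + 1 := ⟨c - 1, by omega⟩
  have hc : 2 * ((m + 1 : ℕ) : ℤ) = (n : ℤ) + 1 := by rw [hm]; push_cast; ring
  have hG := tpart_lef X ζ
  -- the degree `2`
  have hI : NInj X.diff (tpart X.toSpecialFibre ζ) 1 (((0 : ℕ) : ℤ) + 2) := by
    rcases Nat.lt_or_ge n 2 with hn | hn
    · rintro x ⟨h3, -⟩
      have h4 : X.tot (-1) (((0 : ℕ) : ℤ) + 2) = ⊥ := by
        apply X.tot_bdd
        right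
        rw [Nat.cast_zero, zero_add, show |(2 : ℤ)| = 2 by norm_num]
        omega
      have h5 := h3.1.1
      rw [h4] at h5
      have h6 : x = 0 := by simpa using h5
      rw [h6]
      exact Submodule.zero_mem _
    · obtain ⟨i, hi⟩ : ∃ i, i + 2 = n := ⟨n - 2, by omega⟩
      have h3 := nInj_of_tateInj X.toSemistableModel (h2 i hi) hζ (c := m) (by omega)
      rw [show (i : ℤ) - n = -((2 : ℕ) : ℤ) by rw [← hi]; push_cast; ring] at h3
      have h4 := hG.nInj_pos 1 le_rfl 2 h3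
      rwa [show (((0 : ℕ) : ℤ) + 2) = ((2 : ℕ) : ℤ) by norm_num]
  rw [show (n : ℤ) - n = -((0 : ℕ) : ℤ) by push_cast; ring]
  intro x hx
  obtain ⟨z, hz, hz'⟩ := hG.lred' 1 le_rfl 0 hI hx
  have h3 : x - z ∈ Bd X.diff (tpart X.toSpecialFibre ζ) (-1) (-((0 : ℕ) : ℤ)) := by
    obtain ⟨⟨h4, h5⟩, h6⟩ := hz'
    rw [show -((0 : ℕ) : ℤ) = (n : ℤ) - n by push_cast; ring] at h4 h5 ⊢
    rw [SetLike.mem_coe, zc_tpart X.toSpecialFibre ζ hc] at h4
    obtain ⟨h4, hg⟩ := h4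
    rw [SetLike.mem_coe, bd_tpart' X.toSpecialFibre ζ hc hg] at h5
    rw [bd_tpart X.toSpecialFibre ζ hc hg]
    have h7 := h m hm _ (twist_tate (c := m + 1) hζ) (x - z) ⟨by
        rwa [show 2 * (m : ℤ) + 2 = n + 1 by rw [hm]; push_cast; ring], by
        rw [SetLike.mem_coe, LinearMap.mem_ker, zero_add, pow_one] at h6
        exact h6, hg⟩
      (by rwa [show 2 * (m : ℤ) = n - 1 by rw [hm]; push_cast; ring])
    rwa [show 2 * (m : ℤ) + 2 = n + 1 by rw [hm]; push_cast; ring] at h7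
  have h4 := Submodule.add_mem _ h3 hz
  rwa [sub_add_cancel] at h4

/-- The double locus condition for primitive Tate classes implies the condition on the primitive
part of the `E_1` term. -/
lemma prim_of_tate (X : SpecialFibre.{u, v} Ω Γ n q) (h : TateClassCondition X) :
    PrimitiveTateCondition X := by
  rintro m hm γ hγ x ⟨hx, hL, hg⟩ hb
  have hq0 : (q : Ω) ≠ 0 := Nat.cast_ne_zero.2 X.q_ne
  have hgen : x ∈ Module.End.maxGenEigenspace (X.actC 1 X.frob) ((q : Ω)⁻¹ * γ) := by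
    have h1 := (frobSym X).neg_wt (mem_Wt_unit.2 hg)
    rw [neg_neg] at h1
    have h2 := mem_Wt_unit.1 h1
    rwa [SpecialFibre.cyc', X.cyc_frob, zpow_neg_one] at h2
  obtain ⟨y, hyE, hyg, hyx⟩ := cob_gen X 1 (2 * (m : ℤ)) hgen hb
  rw [show (1 : ℤ) - 1 = 0 by norm_num] at hyE hyg hyx
  have hy0 : y ∈ X.E₁ ((0 : ℕ) : ℤ) (2 * (m : ℤ)) := by rwa [Nat.cast_zero]
  have hx0 : X.diff (-(((0 : ℕ) : ℤ) + 1)) (X.diff ((0 : ℕ) : ℤ) y) = 0 := by
    rw [Nat.cast_zero, hyx]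
    exact hx.2
  obtain ⟨h6, y', hy', h7⟩ := reduce X 0 (2 * (m : ℤ)) hy0 hx0
  rw [Nat.cast_zero] at hy' h7
  have h8 : y 0 ∈ X.gr 0 (2 * (m : ℤ)) := by
    have := (hy0 0).1
    rwa [show 2 * (m : ℤ) + ((0 : ℕ) : ℤ) - ((0 : ℕ) : ℤ) = 2 * m by ring] at this
  have h9 : y 0 ∈ (X.act 0 X.frob).maxGenEigenspace ((q : Ω)⁻¹ * γ) := by
    have := comp_gen X 0 hyg 0
    rwa [show (((0 : ℕ) : ℤ) - 0) / 2 = 0 by norm_num, zpow_zero, inv_one, one_mul] at this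
  have h10 : IsTatePower q m ((q : Ω)⁻¹ * γ) := by
    obtain ⟨k, hk, hk'⟩ := hγ
    refine ⟨k, hk, ?_⟩
    rw [mul_pow, hk', ← mul_pow, pow_succ, mul_comm ((q : Ω) ^ m) q, inv_mul_cancel_left₀ hq0]
  have hcob : ∀ (z : X.C) (w w' : ℤ), z ∈ X.E₁ (-(0 + 1) - 1) w → w = w' →
      X.diff (-(0 + 1) - 1) z ∈ X.coboundaries (-1) w' := by
    intro z w w' hz hw
    subst hw
    refine ⟨z, ?_, ?_⟩
    · rwa [show (-1 : ℤ) - 1 = -(0 + 1) - 1 by ring]
    · rw [show (-1 : ℤ) - 1 = -(0 + 1) - 1 by ring]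
  have h12 : X.lefC (Pi.single 1 (X.res 0 (y 0)) : X.C) =
      -X.diff (-(0 + 1) - 1) (X.lefC y') := by
    rw [X.diff_lefC, ← map_neg]
    have h14 : X.lefC x = X.lefC (X.diff (-(0 + 1) - 1) y') +
        X.lefC (Pi.single 1 (X.res 0 (y 0)) : X.C) := by
      rw [← map_add, ← hyx, h7]
    rw [hL] at h14
    rw [map_neg]
    exact eq_neg_of_add_eq_zero_right h14.symm
  have h11 := h m hm _ h10 (y 0) ⟨h8, h9⟩ h6 (by
    show X.lefC (Pi.single 1 (X.res 0 (y 0)) : X.C) ∈ _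
    rw [h12]
    apply Submodule.neg_mem
    exact hcob _ _ _ (X.lefC_mem hy') (by ring))
  rw [← hyx, h7]
  exact Submodule.add_mem _ (hcob _ _ _ hy' (by ring)) h11

/-- If `N` is not injective from the graded piece of weight `i + 1` to the one of weight `i - 1`,
then there is an eigenvector in the kernel. -/
lemma exists_eigen_ker (X : SemistableModel.{u, v} Ω Γ n q) (i : ℕ) (h : ¬ InjAt X i 1) :
    ∃ (α : Ω) (v : X.V i), v ∈ X.W i (i + 1) ∧ X.N i v ∈ X.W i (i - 2) ∧ v ∉ X.W i i ∧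
      X.actV i X.frob v - α • v ∈ X.W i i := by
  unfold InjAt at h
  push Not at h
  obtain ⟨v, hv, hN, hv'⟩ := h
  rw [pow_one, Nat.cast_one, show (i : ℤ) - 1 - 1 = i - 2 by ring] at hN
  rw [Nat.cast_one] at hv
  rw [Nat.cast_one, show (i : ℤ) + 1 - 1 = i by ring] at hv'
  -- the stable subspace
  let Z : Submodule Ω (X.V i) := X.W i (i + 1) ⊓ (X.W i (i - 2)).comap (X.N i)
  have hZ : ∀ x ∈ Z, X.actV i X.frob x ∈ Z := by
    rintro x ⟨hx1, hx2⟩
    refine ⟨W_stable X i _ x hx1, ?_⟩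
    obtain ⟨c, hc⟩ := X.sp_left i _ x hx1
    have h1 := X.sp_N i _ _ _ hc
    have h2 := (X.sp_ker i _ _ _ h1).1 (by
      rwa [show (i : ℤ) + 1 - 2 - 1 = i - 2 by ring])
    have h3 := X.sp_N i _ _ _ (X.sp_act i _ _ _ X.frob hc)
    have h4 := (X.sp_ker i _ _ _ h3).2 (by
      rw [X.cut_actC]
      have h5 := X.actC_bd _ _ X.frob h2
      have h6 := X.actC_shift ((i : ℤ) - (i + 1) + 2) 1 X.frob (X.cut ((i : ℤ) - (i + 1) + 2) c)
      rw [show (i : ℤ) - (i + 1) + 2 - 2 * 1 = i - (i + 1) by ring] at h6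
      rw [h6]
      apply Submodule.smul_mem
      rw [show (i : ℤ) - (i + 1) + 2 = i - (i + 1 - 2) by ring]
      rw [show (i : ℤ) - (i + 1) + 2 = i - (i + 1 - 2) by ring] at h5
      exact h5)
    rwa [show (i : ℤ) + 1 - 2 - 1 = i - 2 by ring] at h4
  -- a generalized eigenvector
  have hc : ∀ g h : Unit, Commute ((fun _ : Unit => X.actV i X.frob) g)
      ((fun _ : Unit => X.actV i X.frob) h) := fun _ _ => Commute.refl _
  have hex : ∃ (χ : Unit → Ω) (x : X.V i), x ∈ Z ∧ x ∉ X.W i i ∧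
      x ∈ (X.actV i X.frob).maxGenEigenspace (χ ()) := by
    by_contra hcon
    push Not at hcon
    apply hv'
    have h1 : Z ≤ X.W i i := by
      rw [← stable_eq_iSup (fun _ : Unit => X.actV i X.frob) hc Z (fun _ x hx => hZ x hx)]
      apply iSup_le
      rintro χ x ⟨hx, hxW⟩
      by_contra hne
      refine hcon χ x hx hne ?_
      have h1 : x ∈ Wt (fun _ : Unit => X.actV i X.frob) χ := hxW
      unfold Wt at h1
      rw [Submodule.mem_iInf] at h1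
      exact h1 ()
    exact h1 ⟨hv, hN⟩
  obtain ⟨χ, x, hxZ, hxW, hxg⟩ := hex
  obtain ⟨y, hy, hy', hyα⟩ := exists_eigen_mod (X.actV i X.frob) (χ ()) hZ hxZ hxW hxg
  exact ⟨χ (), y, hy.1, hy.2, hy', hyα⟩

variable {𝒳 : ∀ n, Set (Degeneration.{u, v} Ω Γ n q)}

/-- From primitive Tate classes to Tate classes. -/
theorem tateInj_all (h𝒳 : IsClosedClass 𝒳)
    (h : ∀ n, ∀ X ∈ 𝒳 n, PrimitiveTateCondition X.toSpecialFibre) :
    ∀ n, ∀ X ∈ 𝒳 n, TateInj X.toSemistableModel n := by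
  intro n
  induction n using Nat.strong_induction_on with
  | _ n ih =>
    intro X hX
    apply tateInj_of_prim X (h n X hX)
    rintro i rfl
    obtain ⟨X1, hX1, hS1⟩ := h𝒳.sect (i + 1) X hX
    obtain ⟨X2, hX2, hS2⟩ := h𝒳.sect i X1 hX1
    exact tateInj_sect hS1 (by omega) (tateInj_sect hS2 le_rfl (ih i (by omega) X2 hX2))

/-- From the Tate classes to all classes. -/
theorem injAt_of_tateInj (hT : HasTwists 𝒳)
    (h : ∀ n, ∀ X ∈ 𝒳 n, TateInj X.toSemistableModel n) (n : ℕ) :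
    ∀ X ∈ 𝒳 n, InjAt X.toSemistableModel n 1 := by
  intro X hX
  by_contra hcon
  obtain ⟨α, v, hv, hN, hv', hα⟩ := exists_eigen_ker X.toSemistableModel n hcon
  have en : (n : ℤ) + 1 - 1 = n := by ring
  obtain ⟨m, X', hX', c, β, J, hc, hαβ, hJ⟩ := hT n X hX α
    ⟨v, hv, by rwa [en], by rwa [en]⟩
  apply hv'
  have h1 : J v ∈ X'.W (n + m) (((n + m : ℕ) : ℤ) + 1) := by
    have := (hJ.weight _ _).2 hv
    rwa [show (n : ℤ) + 1 + m = ((n + m : ℕ) : ℤ) + 1 by push_cast; ring] at this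
  have h2 : X'.N (n + m) (J v) ∈ X'.W (n + m) (((n + m : ℕ) : ℤ) - 2) := by
    rw [hJ.mon]
    have := (hJ.weight _ _).2 hN
    rwa [show (n : ℤ) - 2 + m = ((n + m : ℕ) : ℤ) - 2 by push_cast; ring] at this
  have h3 : X'.actV (n + m) X'.frob (J v) - (α * β) • J v ∈ X'.W (n + m) ((n + m : ℕ) : ℤ) := by
    rw [hJ.frob, mul_comm, mul_smul, ← smul_sub, ← map_smul, ← map_sub]
    apply Submodule.smul_mem
    have := (hJ.weight _ _).2 hα
    rwa [show (n : ℤ) + m = ((n + m : ℕ) : ℤ) by push_cast; ring] at this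
  have h4 := h _ X' hX' c (by omega) _ hαβ (J v) h1 h2 ⟨1, by rw [pow_one]; exact h3⟩
  rwa [show ((n + m : ℕ) : ℤ) = (n : ℤ) + m by push_cast; ring, hJ.weight] at h4

end Pool.Agent.Helper812_WR
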